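import Pool.Agent.K4H25.LG.L6
import Pool.Agent.K4H25.PC.Plc

/-!
Pluricanonical forms on a curve and logarithmic derivatives: algebraic preparations.
-/

set_option autoImplicit false
set_option linter.overlappingInstances false
set_option linter.unusedSectionVars false
set_option linter.unusedVariables false
set_option maxHeartbeats 4000000
set_option synthInstance.maxHeartbeats 400000

open FF IntermediateField Pool.Agent.W619.PQ Pool.Agent.W619.PL
  Pool.Agent.W619.TW Pool.Agent.W603.LV Pool.Agent.K4H25.GQ Pool.Agent.K4H25.GW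
  Pool.Agent.K4H25.HY Pool.Agent.W619.X Pool.Agent.W619.Y

namespace Pool.Agent.K4H25.EN

section

variable {k : Type} [Field k] [CharZero k] [IsAlgClosed k] {B : Type} [Field B] [Algebra k B]
  [IsFF k B]

/-- Functions which do not vanish simultaneously at any place generate the unit ideal. -/
theorem cert {r : ℕ} (w : Fin r → B) (h : ∀ P : Place k B, ∃ j, w j ≠ 0 ∧ P.ord (w j) ≤ 0) :
    ∃ A : Fin r → MvPolynomial (Fin r) k, ∑ j, MvPolynomial.aeval w (A j) * w j = 1 := by
  classical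
  by_cases hx : ∃ x, Transcendental k (w x)
  · obtain ⟨x, hx⟩ := hx
    let A0 : Subring B := (Algebra.adjoin k (Set.range w)).toSubring
    have hmem : ∀ j, w j ∈ A0 := fun j => Algebra.subset_adjoin ⟨j, rfl⟩
    let v : Fin r → A0 := fun j => ⟨w j, hmem j⟩
    have hI : Ideal.span (Set.range v) = ⊤ := by
      by_contra hI
      obtain ⟨P, hP⟩ := Pool.Agent.K4H25.PC.exists_place_ideal A0
        (fun c => (Algebra.adjoin k (Set.range w)).algebraMap_mem c) _ hI (x := v x)
        (Ideal.subset_span ⟨x, rfl⟩) hx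
      obtain ⟨j, hj0, hj⟩ := h P
      rcases hP (v j) (Ideal.subset_span ⟨j, rfl⟩) with h1 | h1
      · exact hj0 h1
      · change 1 ≤ P.ord (w j) at h1
        omega
    have h1 : (1 : A0) ∈ Ideal.span (Set.range v) := by
      rw [hI]
      trivial
    obtain ⟨c, hc⟩ := Ideal.mem_span_range_iff_exists_fun.1 h1
    have hA : ∀ j, ∃ A : MvPolynomial (Fin r) k, MvPolynomial.aeval w A = (c j : B) := by
      intro j
      have h2 : (c j : B) ∈ Algebra.adjoin k (Set.range w) := (c j).2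
      rw [Algebra.adjoin_range_eq_range_aeval] at h2
      exact h2
    choose A hA using hA
    refine ⟨A, ?_⟩
    have h2 : ((∑ j, c j * v j : A0) : B) = 1 := congrArg (fun z : A0 => (z : B)) hc
    rw [AddSubmonoidClass.coe_finset_sum] at h2
    refine Eq.trans ?_ h2
    refine Finset.sum_congr rfl fun j _ => ?_
    rw [hA]
    rfl
  · push Not at hx
    have hne : Nonempty (Place k B) := by
      have := infinite_place (k := k) (A := B)
      exact inferInstance
    obtain ⟨P⟩ := hne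
    obtain ⟨j, hj0, -⟩ := h P
    have halg : IsAlgebraic k (w j) := by
      by_contra hcon
      exact hx j hcon
    obtain ⟨c, hc⟩ := minpoly.mem_range_of_degree_eq_one k (w j)
      (IsAlgClosed.degree_eq_one_of_irreducible k (minpoly.irreducible halg.isIntegral))
    have hc0 : c ≠ 0 := by
      rintro rfl
      rw [map_zero] at hc
      exact hj0 hc.symm
    refine ⟨fun i => if i = j then MvPolynomial.C c⁻¹ else 0, ?_⟩
    rw [Finset.sum_eq_single j]
    · beta_reduce
      rw [if_pos rfl, MvPolynomial.aeval_C, ← hc, ← map_mul, inv_mul_cancel₀ hc0, map_one]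
    · intro i _ hi
      beta_reduce
      rw [if_neg hi, map_zero, zero_mul]
    · intro hj
      exact absurd (Finset.mem_univ j) hj

/-- Functions with logarithmic derivatives without common zeros. -/
theorem exists_family (D0 : Derivation k B B) (hD0 : D0 ≠ 0) (T : Finset (Place k B)) :
    ∃ (r : ℕ) (y : Fin (r + 1) → B), y 0 = 1 ∧ (∀ j, y j ≠ 0) ∧ (∃ j, Transcendental k (y j)) ∧
      ∀ P, ∃ j, D0 (y j) ≠ 0 ∧ P.ord (D0 (y j) / y j) ≤ vo P D0 ∧
        (P ∈ T → P.ord (D0 (y j) / y j) ≤ vo P D0 - 1) := by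
  classical
  obtain ⟨t, ht⟩ := IsFF.exists_transcendental (k := k) (K := B)
  have ht0 : t ≠ 0 := by
    rintro rfl
    exact ht isAlgebraic_zero
  have hDt : D0 t ≠ 0 := der_ne_zero hD0 ht
  obtain ⟨F, hF⟩ : ∃ F : Finset (Place k B), F = T ∪ ((finite_support (k := k) (D0 t)).toFinset ∪
    ((vo_finite hD0).toFinset ∪ (finite_support (k := k) t).toFinset)) := ⟨_, rfl⟩
  choose π hπ0 hπ using fun P : Place k B => P.surj
  obtain ⟨Y, hY⟩ : ∃ Y : Finset B, Y = insert t (F.image π) := ⟨_, rfl⟩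
  have hYne : ∀ z ∈ Y, z ≠ 0 := by
    intro z hz
    rw [hY, Finset.mem_insert, Finset.mem_image] at hz
    rcases hz with rfl | ⟨P, -, rfl⟩
    · exact ht0
    · exact hπ0 P
  obtain ⟨y, hy0, hyS⟩ : ∃ y : Fin (Y.card + 1) → B, y 0 = 1 ∧
      ∀ j : Fin Y.card, y j.succ = (Y.equivFin.symm j : B) :=
    ⟨Fin.cons 1 fun j => (Y.equivFin.symm j : B), rfl, fun j => rfl⟩
  have hyY : ∀ z ∈ Y, ∃ j, y j = z := by
    intro z hz
    refine ⟨(Y.equivFin ⟨z, hz⟩).succ, ?_⟩
    rw [hyS, Equiv.symm_apply_apply]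
  refine ⟨Y.card, y, hy0, ?_, ?_, ?_⟩
  · intro j
    refine Fin.cases ?_ (fun j => ?_) j
    · rw [hy0]
      exact one_ne_zero
    · rw [hyS]
      exact hYne _ (Y.equivFin.symm j).2
  · obtain ⟨j, hj⟩ := hyY t (by rw [hY]; exact Finset.mem_insert_self _ _)
    exact ⟨j, by rw [hj]; exact ht⟩
  · intro P
    by_cases hP : P ∈ F
    · obtain ⟨j, hj⟩ := hyY (π P) (by
        rw [hY]
        exact Finset.mem_insert_of_mem (Finset.mem_image_of_mem _ hP))
      have h1 : P.ord (D0 (π P)) = vo P D0 := vo_eq P (hπ P) hD0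
      have h2 : D0 (π P) ≠ 0 := der_ne_zero hD0 (trans_of_ord P (by rw [hπ]; exact one_ne_zero))
      have h3 : P.ord (D0 (π P) / π P) = vo P D0 - 1 := by
        rw [P.ord_div h2 (hπ0 P), h1, hπ]
      refine ⟨j, by rw [hj]; exact h2, ?_, fun _ => ?_⟩
      · rw [hj, h3]
        omega
      · rw [hj, h3]
    · rw [hF] at hP
      simp only [Finset.mem_union, Set.Finite.mem_toFinset, not_or] at hP
      obtain ⟨hPT, hP1, hP2, hP3⟩ := hP
      have e1 : P.ord (D0 t) = 0 := by
        by_contra hcon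
        exact hP1 hcon
      have e2 : vo P D0 = 0 := by
        by_contra hcon
        exact hP2 hcon
      have e3 : P.ord t = 0 := by
        by_contra hcon
        exact hP3 hcon
      obtain ⟨j, hj⟩ := hyY t (by rw [hY]; exact Finset.mem_insert_self _ _)
      refine ⟨j, by rw [hj]; exact hDt, ?_, fun h => absurd h hPT⟩
      rw [hj, P.ord_div hDt ht0, e1, e2, e3]
      norm_num

/-- Pluricanonical forms with many zeros. -/
theorem exists_form (D0 : Derivation k B B) (hD0 : D0 ≠ 0) (δ : Place k B → ℚ)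
    (T : Finset (Place k B)) (hT : ∀ q ∉ T, δ q = 0)
    (hdeg : (0 : ℚ) < canDeg k B + ∑ q ∈ T, δ q) {r : ℕ} (y : Fin (r + 1) → B)
    (hy : ∀ j, y j ≠ 0) :
    ∃ m0 : ℕ, 1 ≤ m0 ∧ ∀ q : ℕ, 1 ≤ q → ∃ c : B, c ≠ 0 ∧ ∀ P l,
      ((q * m0 : ℕ) : ℚ) * (vo P D0 - δ P) ≤ P.ord (c * y l) := by
  classical
  obtain ⟨γ, N', hrr, -⟩ := riemann (k := k) (K := B)
  obtain ⟨m1, hm1, hm⟩ := exists_denom T δ
  choose! z hz using hm
  -- the poles of the functions
  obtain ⟨b, hb⟩ : ∃ b : Place k B → ℤ, b = fun P => ∑ l, |P.ord (y l)| := ⟨_, rfl⟩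
  obtain ⟨F, hF⟩ : ∃ F : Finset (Place k B), ∀ P ∉ F, ∀ l, P.ord (y l) = 0 := by
    refine ⟨Finset.univ.biUnion fun l => (finite_support (k := k) (y l)).toFinset, fun P hP l => ?_⟩
    by_contra hcon
    exact hP (Finset.mem_biUnion.2 ⟨l, Finset.mem_univ l,
      (finite_support (k := k) (y l)).mem_toFinset.2 hcon⟩)
  obtain ⟨β, hβ⟩ : ∃ β : ℤ, β = ∑ P ∈ F, b P := ⟨_, rfl⟩
  -- the degree
  obtain ⟨ε, hε⟩ : ∃ ε : ℤ, (m1 : ℚ) * (canDeg k B + ∑ q ∈ T, δ q) = ε := by
    refine ⟨m1 * canDeg k B + ∑ q ∈ T, z q, ?_⟩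
    rw [mul_add, Finset.mul_sum, Finset.sum_congr rfl hz]
    push_cast
    ring
  have hε1 : 1 ≤ ε := by
    have h1 : (0 : ℚ) < m1 := by exact_mod_cast hm1
    have h2 := mul_pos h1 hdeg
    rw [hε] at h2
    exact_mod_cast h2
  obtain ⟨a, ha⟩ : ∃ a : ℕ, γ + β + 1 ≤ a ∧ 1 ≤ a :=
    ⟨(γ + β + 1).toNat + 1, by have := Int.self_le_toNat (γ + β + 1); push_cast; omega, by omega⟩
  refine ⟨a * m1, Nat.mul_pos ha.2 hm1, fun q hq => ?_⟩
  obtain ⟨m, hmdef⟩ : ∃ m : ℕ, m = q * a := ⟨_, rfl⟩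
  obtain ⟨S, hS⟩ : ∃ S : Finset (Place k B), S = (vo_finite hD0).toFinset ∪ (T ∪ F) := ⟨_, rfl⟩
  have hST : T ⊆ S := by
    rw [hS]
    exact Finset.subset_union_left.trans Finset.subset_union_right
  have hSF : F ⊆ S := by
    rw [hS]
    exact Finset.subset_union_right.trans Finset.subset_union_right
  have hSv : ∀ P ∉ S, vo P D0 = 0 := by
    intro P hP
    by_contra hcon
    apply hP
    rw [hS]
    exact Finset.mem_union_left _ ((vo_finite hD0).mem_toFinset.2 hcon)
  have hb0 : ∀ P ∉ F, b P = 0 := by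
    intro P hP
    rw [hb]
    exact Finset.sum_eq_zero fun l _ => by rw [hF P hP l, abs_zero]
  have hsupp : ∀ P, (- ((m * m1 : ℕ) : ℤ) * vo P D0 + (if P ∈ T then m * z P else 0) - b P) ≠ 0 →
      P ∈ S := by
    intro P hP
    by_contra hPS
    apply hP
    rw [hSv P hPS, if_neg (fun h => hPS (hST h)), hb0 P (fun h => hPS (hSF h))]
    ring
  let C : Place k B →₀ ℤ := Finsupp.ofSupportFinite
    (fun P => - ((m * m1 : ℕ) : ℤ) * vo P D0 + (if P ∈ T then m * z P else 0) - b P)
    (S.finite_toSet.subset fun P hP => hsupp P hP)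
  have hCq : ∀ P, C P = - ((m * m1 : ℕ) : ℤ) * vo P D0 + (if P ∈ T then m * z P else 0) - b P :=
    fun P => rfl
  have hdegC : ddeg C = (m * m1 : ℕ) * canDeg k B + ∑ P ∈ T, m * z P - β := by
    unfold ddeg
    rw [Finsupp.sum_of_support_subset (s := S) _ (fun q hq => hsupp q (by
      rw [← hCq]; exact Finsupp.mem_support_iff.1 hq)) _ (by intros; simp)]
    have h1 : ∀ P ∈ S, C P * (P.deg : ℤ) =
        - ((m * m1 : ℕ) : ℤ) * vo P D0 + (if P ∈ T then m * z P else 0) - b P := by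
      intro P _
      rw [deg_one, hCq]; simp
    rw [Finset.sum_congr rfl h1, Finset.sum_sub_distrib, Finset.sum_add_distrib, ← Finset.mul_sum,
      canDeg_finset hD0 S fun P hP => by
        by_contra hcon
        exact hP (hSv P hcon), Finset.sum_ite_mem, Finset.inter_eq_right.2 hST]
    have h2 : ∑ P ∈ S, b P = β := by
      rw [hβ]
      symm
      exact Finset.sum_subset hSF fun P _ hP => hb0 P hP
    rw [h2]
    ring
  have hdeg2 : ddeg C = m * ε - β := by
    have h1 : ((ddeg C : ℤ) : ℚ) = m * ε - β := by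
      rw [hdegC, ← hε]
      push_cast
      rw [Finset.sum_congr rfl (fun P hP => by rw [← hz P hP]), ← Finset.mul_sum, ← Finset.mul_sum]
      ring
    exact_mod_cast h1
  have hell : 1 ≤ ell C := by
    have h1 := hrr C
    have h2 : (m : ℤ) * 1 ≤ m * ε := mul_le_mul_of_nonneg_left hε1 (by positivity)
    have h3 : (a : ℤ) ≤ m := by
      rw [hmdef]
      push_cast
      have : (1 : ℤ) ≤ q := by exact_mod_cast hq
      nlinarith [ha.2]
    rw [hdeg2] at h1
    have := ha.1
    omega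
  obtain ⟨c, hc, hc0⟩ := exists_ne_zero_of_ell_pos (D := C) (by omega)
  refine ⟨c, hc0, fun P l => ?_⟩
  have h1 := (mem_LL.1 hc).resolve_left hc0 P
  rw [hCq] at h1
  rw [P.ord_mul hc0 (hy l)]
  have h2 : -b P ≤ P.ord (y l) := by
    have h3 := Finset.single_le_sum (f := fun l => |P.ord (y l)|) (fun l _ => abs_nonneg _)
      (Finset.mem_univ l)
    have h4 := neg_abs_le (P.ord (y l))
    rw [hb]
    beta_reduce
    beta_reduce at h3
    linarith
  have h3 : ((m * m1 : ℕ) : ℤ) * vo P D0 - (if P ∈ T then m * z P else 0) ≤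
      P.ord c + P.ord (y l) := by linarith
  have h4 : (((m * m1 : ℕ) : ℤ) * vo P D0 - (if P ∈ T then m * z P else 0) : ℤ) =
      (((q * (a * m1) : ℕ) : ℚ) * (vo P D0 - δ P) : ℚ) := by
    by_cases hPT : P ∈ T
    · rw [if_pos hPT, hmdef]
      push_cast
      rw [← hz P hPT]
      ring
    · rw [if_neg hPT, hT P hPT, hmdef]
      push_cast
      ring
  rw [← h4]
  exact_mod_cast h3

end

end Pool.Agent.K4H25.EN
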