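import Pool.Agent.K4H25.EN.E1
import Pool.Agent.K4H65.DM.Ent
import Pool.Agent.W602.NC.Wr

/-!
The pull-back of pluricanonical forms by a nonconstant meromorphic map from the plane to a curve.
-/

set_option autoImplicit false
set_option linter.overlappingInstances false
set_option linter.unusedSectionVars false
set_option linter.unusedVariables false
set_option maxHeartbeats 4000000
set_option synthInstance.maxHeartbeats 400000

open FF IntermediateField Filter Topology Pool.Agent.W619.PQ Pool.Agent.W619.PL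
  Pool.Agent.W619.TW Pool.Agent.W603.LV Pool.Agent.K4H25.GQ Pool.Agent.K4H25.GW
  Pool.Agent.K4H25.HY Pool.Agent.TH143.EL Pool.Agent.Y221.AB

namespace Pool.Agent.K4H25.EN

open Pool.Agent.K4H65.DM (plc plc_ord)
open Pool.Agent.Y216 (MDer_const)

theorem exists_overH_of {k : Type} [Field k] {A B : Type} [Field A] [Field B] [Algebra k A]
    [Algebra k B] (φ : A →ₐ[k] B) (w : Place k B) {f : A} (h : w.ord (φ f) ≠ 0) :
    ∃ v e, OverH φ w v e := by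
  let _ : Algebra A B := φ.toRingHom.toAlgebra
  have t1 : IsScalarTower k A B := IsScalarTower.of_algebraMap_eq fun c => (φ.commutes c).symm
  obtain ⟨e, v, hv⟩ := exists_over (K := A) w ⟨f, h⟩
  exact ⟨v, e, hv.1, fun f => hv.2 f⟩

section

variable {B : Type} [Field B] [Algebra ℂ B] [IsFF ℂ B]

theorem plc_zero_iff {x : MK} (hx : x ≠ 0) (z : ℂ) : (plc z).ord x = 0 ↔ Fn x z ≠ 0 := by
  rw [plc_ord, ← odr_zero_iff]
  obtain ⟨a, ha⟩ := WithTop.ne_top_iff_exists.1 (odr_ne_top hx z)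
  rw [← ha]
  simp

theorem plc_reg {x : MK} (z : ℂ) : (plc z).Reg x ↔ Reg x z := by
  rw [reg_iff]
  by_cases hx : x = 0
  · rw [hx, Pool.Agent.K4H65.DM.odr_zero]
    exact ⟨fun _ => le_top, fun _ => Or.inl rfl⟩
  · obtain ⟨a, ha⟩ := WithTop.ne_top_iff_exists.1 (odr_ne_top hx z)
    rw [(plc z).reg_iff hx, plc_ord, ← ha]
    simp

theorem exists_value (κ : B →ₐ[ℂ] MK) (z : ℂ) : ∃ f : B, (plc z).ord (κ f) ≠ 0 := by
  obtain ⟨t, ht⟩ := IsFF.exists_transcendental (k := ℂ) (K := B)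
  by_cases h : (plc z).ord (κ t) = 0
  · obtain ⟨c, hc⟩ : ∃ c, c = Fn (κ t) z := ⟨_, rfl⟩
    have hr : Reg (κ t) z := by
      rw [← plc_reg]
      exact Or.inr h.ge
    have hne : κ (t - algebraMap ℂ B c) ≠ 0 := by
      intro h0
      have h1 := (map_eq_zero κ).1 h0
      rw [sub_eq_zero] at h1
      exact ht (h1 ▸ isAlgebraic_algebraMap c)
    refine ⟨t - algebraMap ℂ B c, fun h1 => ?_⟩
    rw [plc_zero_iff hne] at h1
    apply h1
    have h2 := evO_apply ((⟨κ t, hr⟩ : Oz z) - algebraMap ℂ (Oz z) c)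
    rw [map_sub, AlgHom.commutes] at h2
    have h3 : (((⟨κ t, hr⟩ : Oz z) - algebraMap ℂ (Oz z) c : Oz z) : MK) =
        κ (t - algebraMap ℂ B c) := by
      rw [map_sub, AlgHom.commutes]
      rfl
    rw [h3] at h2
    rw [← h2, evO_apply, hc]
    exact sub_self _
  · exact ⟨t, h⟩

theorem exists_overH_plc (κ : B →ₐ[ℂ] MK) (z : ℂ) : ∃ p e, OverH κ (plc z) p e := by
  obtain ⟨f, hf⟩ := exists_value κ z
  exact exists_overH_of κ _ hf

theorem exists_rho (κ : B →ₐ[ℂ] MK) (D0 : Derivation ℂ B B) (hD0 : D0 ≠ 0) :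
    ∃ ρ : MK, ρ ≠ 0 ∧ ∀ b, MDer (κ b) = ρ * κ (D0 b) := by
  let _ : Algebra B MK := κ.toRingHom.toAlgebra
  have t1 : IsScalarTower ℂ B MK := IsScalarTower.of_algebraMap_eq fun c => (κ.commutes c).symm
  obtain ⟨t, ht⟩ := IsFF.exists_transcendental (k := ℂ) (K := B)
  have hDt : D0 t ≠ 0 := der_ne_zero hD0 ht
  have hκ : κ (D0 t) ≠ 0 := (_root_.map_ne_zero κ).2 hDt
  refine ⟨MDer (κ t) / κ (D0 t), div_ne_zero ?_ hκ, fun b => ?_⟩
  · intro h0
    obtain ⟨c, hc⟩ := MDer_const _ h0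
    rw [← κ.commutes] at hc
    have h1 : t = algebraMap ℂ B c := κ.toRingHom.injective hc
    exact ht (h1 ▸ isAlgebraic_algebraMap c)
  · obtain ⟨r, h1, h2⟩ := ratio' (K := MK) ht b
    have h3 := h1 D0
    have h4 := h2 MDer
    change MDer (κ b) = κ r * MDer (κ t) at h4
    rw [h4, h3, map_mul]
    field_simp

/-- the order of a derivative -/
theorem ord_MDer {x : MK} {z : ℂ} {e : ℕ} (h : (plc z).ord x = e) (he : 1 ≤ e)
    (hx : MDer x ≠ 0) : (e : ℤ) - 1 ≤ (plc z).ord (MDer x) := by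
  have hx0 : x ≠ 0 := by
    rintro rfl
    exact hx (map_zero _)
  have hr : Reg x z := (plc_reg z).1 (Or.inr (by rw [h]; positivity))
  have h1 : odr x z = ((e : ℤ) : WithTop ℤ) := by
    obtain ⟨a, ha⟩ := WithTop.ne_top_iff_exists.1 (odr_ne_top hx0 z)
    rw [plc_ord, ← ha] at h
    rw [← ha, ← h]
    rfl
  have ha : AnalyticAt ℂ (Fn x) z := hr
  have h2 : odr x z = (analyticOrderAt (Fn x) z).map (↑) := ha.meromorphicOrderAt_eq
  have h3 : odr (MDer x) z = (analyticOrderAt (deriv (Fn x)) z).map (↑) := by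
    rw [MDer_apply]
    unfold odr
    rw [meromorphicOrderAt_congr ((Fn_MD hr).filter_mono nhdsWithin_le_nhds)]
    exact ha.deriv.meromorphicOrderAt_eq
  have h4 := Pool.Agent.W602.NC.ord_deriv ha
  obtain ⟨a, ha'⟩ := WithTop.ne_top_iff_exists.1 (odr_ne_top hx z)
  rw [plc_ord, ← ha']
  rw [← ha'] at h3
  rw [h1] at h2
  cases hA : analyticOrderAt (Fn x) z with
  | top => rw [hA] at h2; simp at h2
  | coe n =>
    cases hB : analyticOrderAt (deriv (Fn x)) z with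
    | top => rw [hB] at h3; simp at h3
    | coe n' =>
      rw [hA] at h2 h4
      rw [hB] at h3 h4
      have h5 : (e : ℤ) = n := WithTop.coe_injective h2
      have h6 : a = n' := WithTop.coe_injective h3
      have h7 : n ≤ n' + 1 := by exact_mod_cast h4
      change (e : ℤ) - 1 ≤ a
      omega

theorem ord_rho (κ : B →ₐ[ℂ] MK) {D0 : Derivation ℂ B B} (hD0 : D0 ≠ 0) {ρ : MK} (hρ0 : ρ ≠ 0)
    (hρ : ∀ b, MDer (κ b) = ρ * κ (D0 b)) {z : ℂ} {p : Place ℂ B} {e : ℕ}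
    (h : OverH κ (plc z) p e) : (e : ℤ) - 1 - e * vo p D0 ≤ (plc z).ord ρ := by
  obtain ⟨t, ht0, ht⟩ := p.surj
  have h1 := vo_eq p ht hD0
  have h2 : D0 t ≠ 0 := der_ne_zero hD0 (Pool.Agent.W619.Y.trans_of_ord p (by rw [ht]; exact one_ne_zero))
  have h3 : κ (D0 t) ≠ 0 := (_root_.map_ne_zero κ).2 h2
  have h4 : (plc z).ord (κ t) = e := by rw [h.2, ht, mul_one]
  have h5 : MDer (κ t) ≠ 0 := by
    rw [hρ]
    exact mul_ne_zero hρ0 h3
  have h6 := ord_MDer h4 h.1 h5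
  rw [hρ, (plc z).ord_mul hρ0 h3, h.2, h1] at h6
  linarith

theorem lower_bound {r : ℕ} (A : Fin r → MvPolynomial (Fin r) ℂ) : ∃ c0 : ℝ, 0 < c0 ∧
    ∀ v : Fin r → ℂ, ∑ j, MvPolynomial.eval v (A j) * v j = 1 → ∃ j, c0 ≤ ‖v j‖ := by
  have hc : Continuous fun v : Fin r → ℂ => ∑ j, MvPolynomial.eval v (A j) * v j :=
    continuous_finsetSum _ fun j _ => (MvPolynomial.continuous_eval (A j)).mul (continuous_apply j)
  have h0 : (∑ j, MvPolynomial.eval (0 : Fin r → ℂ) (A j) * (0 : Fin r → ℂ) j) ≠ 1 := by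
    simp
  have h1 : ∀ᶠ v in 𝓝 (0 : Fin r → ℂ), ∑ j, MvPolynomial.eval v (A j) * v j ≠ 1 :=
    hc.continuousAt.eventually_ne h0
  obtain ⟨ε, hε, hb⟩ := Metric.eventually_nhds_iff.1 h1
  refine ⟨ε, hε, fun v hv => ?_⟩
  by_contra hcon
  push Not at hcon
  refine hb (y := v) ?_ hv
  rw [dist_zero_right, pi_norm_lt_iff hε]
  exact hcon

/-- **The pointwise estimate.** -/
theorem point_bound {r : ℕ} (κ : B →ₐ[ℂ] MK) {D0 : Derivation ℂ B B} {ρ : MK}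
    (hρ0 : ρ ≠ 0) (hρ : ∀ b, MDer (κ b) = ρ * κ (D0 b)) {y : Fin r → B} (hy : ∀ j, y j ≠ 0)
    {d : B} (hd : d ≠ 0) (m : ℕ)
    (hW : ∀ P : Place ℂ B, ∃ j, D0 (y j) ≠ 0 ∧ P.ord ((D0 (y j) / y j) ^ m / d) ≤ 0) :
    ∃ C : ℝ, 0 < C ∧ ∀ᶠ z in codiscrete ℂ, ∀ E : ℝ,
      (∀ j, ‖Fn (MDer (κ (y j)) / κ (y j)) z‖ ≤ E) → ‖Fn (κ d * ρ ^ m) z‖ ≤ C * E ^ m := by
  classical
  obtain ⟨A, hA⟩ := cert (fun j => (D0 (y j) / y j) ^ m / d) (fun P => by
    obtain ⟨j, hj, h⟩ := hW P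
    exact ⟨j, div_ne_zero (pow_ne_zero _ (div_ne_zero hj (hy j))) hd, h⟩)
  obtain ⟨c0, hc0, hlow⟩ := lower_bound A
  refine ⟨1 / c0, by positivity, ?_⟩
  have e1 : ∀ᶠ z in codiscrete ℂ, ∀ j, Reg (κ ((D0 (y j) / y j) ^ m / d)) z :=
    eventually_all.2 fun j => mero_an (Fn_mero _)
  have e2 : ∀ᶠ z in codiscrete ℂ, ∀ j, Reg (MDer (κ (y j)) / κ (y j)) z :=
    eventually_all.2 fun j => mero_an (Fn_mero _)
  have e3 : ∀ᶠ z in codiscrete ℂ, Reg (κ d * ρ ^ m) z := mero_an (Fn_mero _)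
  filter_upwards [e1, e2, e3] with z h1 h2 h3 E hE
  obtain ⟨W, hWd⟩ : ∃ W : Fin r → Oz z, ∀ j, (W j : MK) = κ ((D0 (y j) / y j) ^ m / d) :=
    ⟨fun j => ⟨_, h1 j⟩, fun j => rfl⟩
  obtain ⟨Y, hYd⟩ : ∃ Y : Fin r → Oz z, ∀ j, (Y j : MK) = MDer (κ (y j)) / κ (y j) :=
    ⟨fun j => ⟨_, h2 j⟩, fun j => rfl⟩
  obtain ⟨F, hF⟩ : ∃ F : Oz z, (F : MK) = κ d * ρ ^ m := ⟨⟨_, h3⟩, rfl⟩
  have k1 : ∑ j, MvPolynomial.aeval W (A j) * W j = 1 := by
    apply Subtype.ext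
    have k2 := congrArg κ hA
    rw [map_sum, map_one] at k2
    have k3 : ((∑ j, MvPolynomial.aeval W (A j) * W j : Oz z) : MK) =
        ∑ j, κ (MvPolynomial.aeval (fun j => (D0 (y j) / y j) ^ m / d) (A j) *
          ((D0 (y j) / y j) ^ m / d)) := by
      rw [AddSubmonoidClass.coe_finsetSum]
      refine Finset.sum_congr rfl fun j _ => ?_
      rw [map_mul, ← hWd]
      change ((MvPolynomial.aeval W (A j) : Oz z) : MK) * (W j : MK) = _
      congr 1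
      have k4 := MvPolynomial.comp_aeval_apply W (Oz z).val (A j)
      have k5 := MvPolynomial.comp_aeval_apply (fun j => (D0 (y j) / y j) ^ m / d) κ (A j)
      rw [k5]
      refine k4.trans ?_
      congr 2
      funext j
      exact hWd j
    rw [k3, k2]
    rfl
  have k2 : ∀ j, W j * F = Y j ^ m := by
    intro j
    apply Subtype.ext
    change (W j : MK) * (F : MK) = (Y j : MK) ^ m
    rw [hWd, hF, hYd, hρ, map_div₀, map_pow, map_div₀]
    have h4 : κ d ≠ 0 := (_root_.map_ne_zero κ).2 hd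
    have h5 : κ (y j) ≠ 0 := (_root_.map_ne_zero κ).2 (hy j)
    have h6 : (κ (D0 (y j)) / κ (y j)) ^ m / κ d * (κ d * ρ ^ m) =
        (κ (D0 (y j)) / κ (y j)) ^ m * ρ ^ m := by
      field_simp
    rw [h6, ← mul_pow]
    congr 1
    ring
  have k3 : ∑ j, MvPolynomial.eval (fun j => evO z (W j)) (A j) * evO z (W j) = 1 := by
    have k4 := congrArg (evO z) k1
    rw [map_sum, map_one] at k4
    rw [← k4]
    refine Finset.sum_congr rfl fun j _ => ?_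
    rw [map_mul, MvPolynomial.comp_aeval_apply, MvPolynomial.aeval_eq_eval]
  obtain ⟨j, hj⟩ := hlow _ k3
  have k4 := congrArg (evO z) (k2 j)
  rw [map_mul, map_pow] at k4
  have k5 := congrArg norm k4
  rw [norm_mul, norm_pow] at k5
  have k6 : ‖evO z (Y j)‖ ≤ E := by
    rw [evO_apply, hYd]
    exact hE j
  have k7 : ‖evO z (Y j)‖ ^ m ≤ E ^ m := pow_le_pow_left₀ (norm_nonneg _) k6 m
  have k8 : ‖Fn (κ d * ρ ^ m) z‖ = ‖evO z F‖ := by rw [evO_apply, hF]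
  rw [k8, one_div, inv_mul_eq_div, le_div_iff₀ hc0]
  calc ‖evO z F‖ * c0 ≤ ‖evO z F‖ * ‖evO z (W j)‖ :=
        mul_le_mul_of_nonneg_left hj (norm_nonneg _)
    _ = ‖evO z (Y j)‖ ^ m := by rw [← k5]; ring
    _ ≤ E ^ m := k7

/-- **The pull-back of the pluricanonical forms.** -/
theorem curve_pull (κ : B →ₐ[ℂ] MK) (δ : Place ℂ B → ℚ) (hδ : ∀ p, δ p ≤ 1)
    (T : Finset (Place ℂ B)) (hT : ∀ q ∉ T, δ q = 0)
    (hdeg : (0 : ℚ) < canDeg ℂ B + ∑ q ∈ T, δ q) :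
    ∃ (r : ℕ) (u : Fin (r + 1) → MK), u 0 = 1 ∧ (∀ j, u j ≠ 0) ∧
      (∃ j, ∀ c : ℂ, u j ≠ algebraMap ℂ MK c) ∧
      ∃ m0 : ℕ, 1 ≤ m0 ∧ ∀ q : ℕ, 1 ≤ q → ∃ h : MK, h ≠ 0 ∧
        (∀ (z : ℂ) (p : Place ℂ B) (e : ℕ), OverH κ (plc z) p e → ∀ l,
          ((q * m0 : ℕ) : ℚ) * (e * (1 - δ p) - 1) ≤ (plc z).ord (h * u l)) ∧
        ∀ l, ∃ C : ℝ, 0 < C ∧ ∀ᶠ z in codiscrete ℂ, ∀ E : ℝ,
          (∀ j, ‖Fn (MDer (u j) / u j) z‖ ≤ E) → ‖Fn (h * u l) z‖ ≤ C * E ^ (q * m0) := by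
  classical
  obtain ⟨D0, hD0⟩ := exists_der (k := ℂ) (K := B)
  obtain ⟨ρ, hρ0, hρ⟩ := exists_rho κ D0 hD0
  obtain ⟨r, y, hy0, hyne, ⟨j1, hj1⟩, hyP⟩ := exists_family D0 hD0 T
  obtain ⟨m0, hm0, hform⟩ := exists_form D0 hD0 δ T hT hdeg y hyne
  refine ⟨r, fun j => κ (y j), by
    beta_reduce
    rw [hy0, map_one], fun j => (_root_.map_ne_zero κ).2 (hyne j),
    ⟨j1, fun c hc => ?_⟩, m0, hm0, fun q hq => ?_⟩
  · rw [← κ.commutes] at hc
    have h1 : y j1 = algebraMap ℂ B c := κ.toRingHom.injective hc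
    exact hj1 (h1 ▸ isAlgebraic_algebraMap c)
  obtain ⟨c, hc0, hc⟩ := hform q hq
  obtain ⟨m, hm⟩ : ∃ m, m = q * m0 := ⟨_, rfl⟩
  rw [← hm] at hc ⊢
  have hκc : κ c ≠ 0 := (_root_.map_ne_zero κ).2 hc0
  have hrel : ∀ l, κ c * ρ ^ m * κ (y l) = κ (c * y l) * ρ ^ m := by
    intro l
    rw [map_mul]
    ring
  refine ⟨κ c * ρ ^ m, mul_ne_zero hκc (pow_ne_zero _ hρ0), ?_, ?_⟩
  · intro z p e hp l
    beta_reduce
    have h1 : κ (c * y l) ≠ 0 := (_root_.map_ne_zero κ).2 (mul_ne_zero hc0 (hyne l))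
    have h2 := hc p l
    have h3 := ord_rho κ hD0 hρ0 hρ hp
    rw [hrel, (plc z).ord_mul h1 (pow_ne_zero _ hρ0), (plc z).ord_pow, hp.2]
    have h4 : ((e : ℤ) : ℚ) - 1 - e * (vo p D0 : ℚ) ≤ (((plc z).ord ρ : ℤ) : ℚ) := by
      exact_mod_cast h3
    have he : (0 : ℚ) ≤ e := Nat.cast_nonneg _
    have hm' : (0 : ℚ) ≤ m := Nat.cast_nonneg _
    have h5 := mul_le_mul_of_nonneg_left h2 he
    have h6 := mul_le_mul_of_nonneg_left h4 hm'
    push_cast at h5 h6 ⊢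
    linarith
  · intro l
    have h1 := point_bound κ hρ0 hρ hyne (mul_ne_zero hc0 (hyne l)) m (fun P => by
      obtain ⟨j, h1, h2, h3⟩ := hyP P
      refine ⟨j, h1, ?_⟩
      rw [P.ord_div (pow_ne_zero _ (div_ne_zero h1 (hyne j))) (mul_ne_zero hc0 (hyne l)),
        P.ord_pow]
      have h4 := hc P l
      have h5 : ((P.ord (D0 (y j) / y j) : ℤ) : ℚ) ≤ vo P D0 - δ P := by
        by_cases hP : P ∈ T
        · have h6 : ((P.ord (D0 (y j) / y j) : ℤ) : ℚ) ≤ vo P D0 - 1 := by exact_mod_cast h3 hP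
          have h7 := hδ P
          linarith
        · rw [hT P hP, sub_zero]
          exact_mod_cast h2
      have h6 := mul_le_mul_of_nonneg_left h5 (Nat.cast_nonneg (α := ℚ) m)
      have h7 : ((m * P.ord (D0 (y j) / y j) - P.ord (c * y l) : ℤ) : ℚ) ≤ 0 := by
        push_cast
        linarith
      exact_mod_cast h7)
    obtain ⟨C, hC, h2⟩ := h1
    refine ⟨C, hC, ?_⟩
    filter_upwards [h2] with z hz E hE
    rw [hrel]
    exact hz E hE

end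

end Pool.Agent.K4H25.EN
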