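import Pool.Agent.K4H25.EN.E2
import Pool.Agent.W602.TL.Contra
import Pool.Agent.W602.TL.Geo

/-!
Meromorphic maps from the plane to products of curves: the logarithmic derivatives.
-/

set_option autoImplicit false
set_option linter.overlappingInstances false
set_option linter.unusedSectionVars false
set_option linter.unusedVariables false
set_option maxHeartbeats 4000000
set_option synthInstance.maxHeartbeats 400000

open FF Filter Topology Metric Pool.Agent.TH143.EL Pool.Agent.Y221.AB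

namespace Pool.Agent.K4H25.EN

open Pool.Agent.K4H65.DM (plc plc_ord)
open Pool.Agent.W602.TL (GoodAt ex ex_diff ex_deriv ex_ne contra circle wr_pair)
open Pool.Agent.W602.NC (sup sup_attained le_sup tau)

theorem Reg_prod {S : Type} (s : Finset S) {x : S → MK} {z : ℂ} (h : ∀ i ∈ s, Reg (x i) z) :
    Reg (∏ i ∈ s, x i) z := by
  have h1 : (∏ i ∈ s, x i) ∈ Oz z := Subalgebra.prod_mem _ fun i hi => mem_Oz.2 (h i hi)
  exact mem_Oz.1 h1

theorem Fn_prod {S : Type} (s : Finset S) {x : S → MK} {z : ℂ} (h : ∀ i, Reg (x i) z) :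
    Fn (∏ i ∈ s, x i) z = ∏ i ∈ s, Fn (x i) z := by
  have h1 := map_prod (evO z) (fun i => (⟨x i, h i⟩ : Oz z)) s
  have h2 : ((∏ i ∈ s, (⟨x i, h i⟩ : Oz z) : Oz z) : MK) = ∏ i ∈ s, x i := by
    rw [SubmonoidClass.coe_finsetProd]
  rw [evO_apply, h2] at h1
  exact h1

theorem Fn_mul_at {x y : MK} {z : ℂ} (hx : Reg x z) (hy : Reg y z) :
    Fn (x * y) z = Fn x z * Fn y z := (Fn_mul hx hy).self_of_nhds

/-- the logarithmic derivative of a quotient -/
theorem Fn_logder {a b u : MK} (ha : a ≠ 0) (hb : b ≠ 0) (hu : u ≠ 0) (hbu : b = u * a)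
    {z : ℂ} (hra : Reg a z) (hrb : Reg b z) (ha0 : Fn a z ≠ 0) (hb0 : Fn b z ≠ 0) :
    Fn (MDer u / u) z = deriv (Fn b) z / Fn b z - deriv (Fn a) z / Fn a z := by
  have h1 : MDer u / u = MDer b * b⁻¹ + algebraMap ℂ MK (-1) * (MDer a * a⁻¹) := by
    have h2 : MDer b = u * MDer a + a * MDer u := by
      rw [hbu, Derivation.leibniz]
      rfl
    rw [h2, hbu, map_neg, map_one]
    field_simp
    ring
  have r1 : Reg (MDer b) z := hrb.MD
  have r2 : Reg (MDer a) z := hra.MD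
  have r3 : Reg b⁻¹ z := hrb.inv hb0
  have r4 : Reg a⁻¹ z := hra.inv ha0
  have r5 : Reg (algebraMap ℂ MK (-1)) z := reg_const _ z
  have e1 : Fn (MDer b) z = deriv (Fn b) z := (Fn_MD hrb).self_of_nhds
  have e2 : Fn (MDer a) z = deriv (Fn a) z := (Fn_MD hra).self_of_nhds
  have e3 : Fn b⁻¹ z = (Fn b z)⁻¹ := (Fn_inv hrb hb0).self_of_nhds
  have e4 : Fn a⁻¹ z = (Fn a z)⁻¹ := (Fn_inv hra ha0).self_of_nhds
  have e5 : Fn (algebraMap ℂ MK (-1)) z = -1 := (Fn_const _ z).self_of_nhds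
  have e6 : Fn (MDer b * b⁻¹ + algebraMap ℂ MK (-1) * (MDer a * a⁻¹)) z =
      Fn (MDer b * b⁻¹) z + Fn (algebraMap ℂ MK (-1) * (MDer a * a⁻¹)) z :=
    (Fn_add (r1.mul r3) (r5.mul (r2.mul r4))).self_of_nhds
  rw [h1, e6, Fn_mul_at r1 r3,
    Fn_mul_at r5 (r2.mul r4), Fn_mul_at r2 r4, e1, e2, e3, e4, e5]
  ring

/-- **No maps with enough ramification.** -/
theorem no_maps {S : Type} [Fintype S] [Nonempty S] (r : S → ℕ) (u : ∀ s, Fin (r s + 1) → MK)
    (h : S → MK) (m : ℕ) (hu0 : ∀ s, u s 0 = 1) (hune : ∀ s j, u s j ≠ 0)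
    (htr : ∃ s j, ∀ c : ℂ, u s j ≠ algebraMap ℂ MK c) (hh : ∀ s, h s ≠ 0)
    (hord : ∀ z, ∀ l : ∀ s, Fin (r s + 1), 0 ≤ ∑ s, (plc z).ord (h s * u s (l s)))
    (hpt : ∀ s l, ∃ C : ℝ, 0 < C ∧ ∀ᶠ z in codiscrete ℂ, ∀ E : ℝ,
      (∀ j, ‖Fn (MDer (u s j) / u s j) z‖ ≤ E) → ‖Fn (h s * u s l) z‖ ≤ C * E ^ m) : False := by
  classical
  choose e U hN using fun s => exists_nrm (u s) (hu0 s)
  -- the products
  obtain ⟨X, hX⟩ : ∃ X : (∀ s, Fin (r s + 1)) → MK, ∀ a, X a = ∏ s, e s * u s (a s) :=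
    ⟨_, fun a => rfl⟩
  have hXne : ∀ a, X a ≠ 0 := fun a => by
    rw [hX]
    exact Finset.prod_ne_zero_iff.2 fun s _ => mul_ne_zero (hN s).ne (hune s _)
  have hXreg : ∀ a z, Reg (X a) z := fun a z => by
    rw [hX]
    exact Reg_prod _ fun s _ => (hN s).reg _ z
  obtain ⟨K, hK⟩ : ∃ K : MK, K = ∏ s, h s / e s := ⟨_, rfl⟩
  have hKne : K ≠ 0 := by
    rw [hK]
    exact Finset.prod_ne_zero_iff.2 fun s _ => div_ne_zero (hh s) (hN s).ne
  have hKX : ∀ a, K * X a = ∏ s, h s * u s (a s) := by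
    intro a
    rw [hK, hX, ← Finset.prod_mul_distrib]
    refine Finset.prod_congr rfl fun s _ => ?_
    have := (hN s).ne
    field_simp
  have hKreg : ∀ z, Reg K z := by
    intro z
    choose a ha using fun s => (hN s).nz z
    have h1 := hord z a
    have h2 : ∀ s, (plc z).ord (e s * u s (a s)) = 0 := by
      intro s
      rw [plc_zero_iff (mul_ne_zero (hN s).ne (hune s _)), ← (hN s).eq]
      exact ha s
    have h3 : ∀ t : Finset S, (plc z).ord (∏ s ∈ t, h s / e s) =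
        ∑ s ∈ t, (plc z).ord (h s * u s (a s)) := by
      intro t
      induction t using Finset.induction_on with
      | empty =>
        rw [Finset.prod_empty, Finset.sum_empty]
        exact Place.ord_one _
      | insert s t hs ih =>
        rw [Finset.prod_insert hs, Finset.sum_insert hs, (plc z).ord_mul
          (div_ne_zero (hh s) (hN s).ne)
          (Finset.prod_ne_zero_iff.2 fun s _ => div_ne_zero (hh s) (hN s).ne), ih]
        congr 1
        have h4 : h s / e s * (e s * u s (a s)) = h s * u s (a s) := by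
          have := (hN s).ne
          field_simp
        rw [← h4, (plc z).ord_mul (div_ne_zero (hh s) (hN s).ne)
          (mul_ne_zero (hN s).ne (hune s _)), h2, add_zero]
    rw [← plc_reg]
    right
    rw [hK, h3]
    exact h1
  -- the indices
  obtain ⟨p, hp⟩ : ∃ p, Fintype.card (∀ s, Fin (r s + 1)) = p + 1 := by
    have h1 : 0 < Fintype.card (∀ s, Fin (r s + 1)) := Fintype.card_pos
    exact ⟨_, (Nat.succ_pred_eq_of_pos h1).symm⟩
  obtain ⟨f, hf⟩ : ∃ f : Fin (p + 1) ≃ (∀ s, Fin (r s + 1)), f 0 = fun s => 0 := by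
    let f0 : Fin (p + 1) ≃ (∀ s, Fin (r s + 1)) := (Fintype.equivFinOfCardEq hp).symm
    exact ⟨f0.trans (Equiv.swap (f0 0) fun s => 0), by
      rw [Equiv.trans_apply, Equiv.swap_apply_left]⟩
  have hXd : ∀ a, Differentiable ℂ (Fn (X a)) := fun a z => (hXreg a z).differentiableAt
  have hKd : Differentiable ℂ (Fn K) := fun z => (hKreg z).differentiableAt
  obtain ⟨b, hb⟩ : ∃ b : ∀ s, Fin (r s + 1) → ∀ s, Fin (r s + 1),
      ∀ s j, b s j = Function.update (fun s => (0 : Fin (r s + 1))) s j := ⟨_, fun s j => rfl⟩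
  have hbX : ∀ s j, X (b s j) = u s j * X (fun s => 0) := by
    intro s j
    rw [hX, hX, hb, ← Finset.mul_prod_erase _ _ (Finset.mem_univ s),
      ← Finset.mul_prod_erase _ (fun s => e s * u s 0) (Finset.mem_univ s),
      Function.update_self, hu0]
    have h1 : ∏ x ∈ Finset.univ.erase s, e x * u x (Function.update (fun s => (0 : Fin (r s + 1))) s j x) =
        ∏ x ∈ Finset.univ.erase s, e x * u x 0 := by
      refine Finset.prod_congr rfl fun x hx => ?_
      rw [Function.update_of_ne (Finset.ne_of_mem_erase hx)]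
    rw [h1]
    ring
  -- the estimate
  choose C hC0 hC using hpt
  obtain ⟨N, hNd⟩ : ∃ N : ℕ, N = ∑ s, (r s + 1) := ⟨_, rfl⟩
  obtain ⟨CC, hCC⟩ : ∃ CC : ℝ, CC = ∑ i, ∏ s, C s (f i s) := ⟨_, rfl⟩
  have hCi : ∀ i, ∏ s, C s (f i s) ≤ CC := by
    intro i
    rw [hCC]
    exact Finset.single_le_sum (f := fun i => ∏ s, C s (f i s))
      (fun i _ => Finset.prod_nonneg fun s _ => (hC0 s _).le) (Finset.mem_univ i)
  have hCC0 : 0 ≤ CC := by
    rw [hCC]
    exact Finset.sum_nonneg fun i _ => Finset.prod_nonneg fun s _ => (hC0 s _).le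
  obtain ⟨s1, j1, hs1⟩ := htr
  refine contra (p := p) (fun i => Fn (X (f i))) (fun i => hXd _)
    (fun i => (Fn_ne_codis (hXne _)).exists) (f.symm (b s1 j1)) ?_ hKd (Fn_ne_codis hKne).exists ?_
  · intro c
    by_contra hcon
    push Not at hcon
    apply hs1 c
    have h1 : X (b s1 j1) = algebraMap ℂ MK c * X (fun s => 0) := by
      rw [← cl_Fn (X (b s1 j1)), ← cl_Fn (algebraMap ℂ MK c * X fun s => 0), cl_eq]
      refine Eventually.of_forall fun z => ?_
      have h2 := hcon z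
      rw [Equiv.apply_symm_apply, hf, sub_eq_zero] at h2
      rw [h2, Fn_mul_at (reg_const c z) (hXreg _ z)]
      congr 1
      exact (Fn_const c z).self_of_nhds.symm
    rw [hbX] at h1
    exact mul_right_cancel₀ (hXne _) h1
  intro z0 hz0 hKz0
  obtain ⟨G, hG⟩ : ∃ G : Fin (p + 1) → ℂ → ℂ, G = fun i z => Fn (X (f i)) (ex z0 z) := ⟨_, rfl⟩
  rw [← hG]
  have hGd : ∀ i, Differentiable ℂ (G i) := fun i => by
    rw [hG]
    exact (hXd _).comp (ex_diff z0)
  obtain ⟨d, hd⟩ : ∃ d : ℕ, d = m * Fintype.card S := ⟨_, rfl⟩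
  obtain ⟨P, hP⟩ : ∃ P : ℂ → ℂ, P = fun z => Fn K (ex z0 z) * ex z0 z ^ d := ⟨_, rfl⟩
  have hPd : Differentiable ℂ P := by
    rw [hP]
    exact (hKd.comp (ex_diff z0)).mul ((ex_diff z0).pow d)
  refine circle (c := 0) (d := d) (κ := 1) one_pos (C := max 1 (CC * (N * Real.exp 1) ^ d))
    (le_max_left _ _) hGd (fun i => by rw [hG]; exact hz0 i) hPd (by
      rw [hP]
      exact mul_ne_zero hKz0 (pow_ne_zero _ (ex_ne _ _))) (fun z => by
      simp only [pow_zero, Finset.prod_const_one]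
      have : analyticOrderAt (fun _ : ℂ => (1 : ℂ)) z = 0 :=
        (analyticAt_const.analyticOrderAt_eq_zero).2 one_ne_zero
      rw [this]
      exact zero_le) ?_
  intro z ε hε hε1 hgood
  simp only [pow_zero, Finset.prod_const_one, mul_one, pow_one]
  obtain ⟨i, hi⟩ := sup_attained G z
  rw [hi]
  -- the logarithmic derivatives
  obtain ⟨Lf, hLf⟩ : ∃ Lf : (Σ s, Fin (r s + 1)) → ℂ → ℂ, ∀ x w, Lf x w =
      deriv (G (f.symm (b x.1 x.2))) w / G (f.symm (b x.1 x.2)) w - deriv (G 0) w / G 0 w :=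
    ⟨_, fun x w => rfl⟩
  have hGz : ∀ i, G i z ≠ 0 := fun i => hgood.1 i z (mem_closedBall_self hε.le)
  have hLc : ∀ x, ContinuousAt (Lf x) z := by
    intro x
    have h1 : Lf x = fun w => deriv (G (f.symm (b x.1 x.2))) w / G (f.symm (b x.1 x.2)) w -
        deriv (G 0) w / G 0 w := funext fun w => hLf x w
    rw [h1]
    exact (((hGd _).deriv.continuous.continuousAt).div (hGd _).continuous.continuousAt
      (hGz _)).sub (((hGd _).deriv.continuous.continuousAt).div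
        (hGd _).continuous.continuousAt (hGz _))
  have hLz : ∀ x, ‖Lf x z‖ ≤ Real.exp 1 * (1 / ε) := by
    intro x
    have h1 := wr_pair (hGd 0) (hGd (f.symm (b x.1 x.2))) hε (hgood.1 0) (hgood.2 0 _)
    have h2 : Lf x z = (G 0 z * deriv (G (f.symm (b x.1 x.2))) z -
        deriv (G 0) z * G (f.symm (b x.1 x.2)) z) / (G 0 z * G (f.symm (b x.1 x.2)) z) := by
      rw [hLf]
      have h3 := hGz 0
      have h4 := hGz (f.symm (b x.1 x.2))
      field_simp
    rw [h2, norm_div, norm_mul, div_le_iff₀ (mul_pos (norm_pos_iff.2 (hGz _))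
      (norm_pos_iff.2 (hGz _)))]
    exact h1
  -- the estimate at the points nearby
  have hev : ∀ᶠ w in 𝓝[≠] z, ‖P w‖ * ‖G i w‖ ≤ CC * (∑ x, ‖Lf x w‖) ^ d := by
    have hex : Tendsto (ex z0) (𝓝[≠] z) (𝓝[≠] (ex z0 z)) :=
      (ex_diff z0 z).hasDerivAt.tendsto_nhdsNE (by rw [ex_deriv]; exact ex_ne _ _)
    have h1 : ∀ᶠ w in 𝓝[≠] z, ∀ s, Reg (h s * u s (f i s)) (ex z0 w) ∧ ∀ E : ℝ,
        (∀ j, ‖Fn (MDer (u s j) / u s j) (ex z0 w)‖ ≤ E) →
          ‖Fn (h s * u s (f i s)) (ex z0 w)‖ ≤ C s (f i s) * E ^ m := by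
      rw [eventually_all]
      intro s
      have h2 : ∀ᶠ ζ in codiscrete ℂ, Reg (h s * u s (f i s)) ζ := mero_an (Fn_mero _)
      exact hex.eventually ((codis_ev h2 _).and (codis_ev (hC s (f i s)) _))
    have h2 : ∀ᶠ w in 𝓝[≠] z, ∀ i, G i w ≠ 0 := by
      rw [eventually_all]
      intro i
      exact ((hGd i).continuous.continuousAt.eventually_ne (hGz i)).filter_mono
        nhdsWithin_le_nhds
    filter_upwards [h1, h2] with w hw hGw
    have hexw : 0 < ‖ex z0 w‖ := norm_pos_iff.2 (ex_ne _ _)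
    obtain ⟨SL, hSL⟩ : ∃ SL : ℝ, SL = ∑ x, ‖Lf x w‖ := ⟨_, rfl⟩
    have hlog : ∀ s j, ‖Fn (MDer (u s j) / u s j) (ex z0 w)‖ ≤ SL / ‖ex z0 w‖ := by
      intro s j
      have h3 : ∀ a, f.symm a = f.symm a := fun a => rfl
      have hG0 : ∀ a w, G (f.symm a) w = Fn (X a) (ex z0 w) := by
        intro a w
        rw [hG]
        beta_reduce
        rw [Equiv.apply_symm_apply]
      have h00 : f.symm (fun s => 0) = 0 := by rw [← hf, Equiv.symm_apply_apply]
      have hG00 : ∀ w, G 0 w = Fn (X fun s => 0) (ex z0 w) := by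
        intro w
        rw [← h00, hG0]
      have hder : ∀ a, deriv (fun w => Fn (X a) (ex z0 w)) w =
          deriv (Fn (X a)) (ex z0 w) * ex z0 w := by
        intro a
        have h5 := ((hXd a (ex z0 w)).hasDerivAt.comp w (ex_diff z0 w).hasDerivAt).deriv
        rw [ex_deriv] at h5
        exact h5
      have h4 := Fn_logder (hXne (fun s => 0)) (hXne (b s j)) (hune s j) (hbX s j)
        (hXreg _ (ex z0 w)) (hXreg _ (ex z0 w)) (by rw [← hG00]; exact hGw 0)
        (by rw [← hG0]; exact hGw _)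
      have h5 : Lf ⟨s, j⟩ w = Fn (MDer (u s j) / u s j) (ex z0 w) * ex z0 w := by
        rw [hLf, h4]
        have e1 : deriv (G (f.symm (b s j))) w = deriv (Fn (X (b s j))) (ex z0 w) * ex z0 w := by
          rw [← hder]
          congr 1
          exact funext fun w => hG0 _ w
        have e2 : deriv (G 0) w = deriv (Fn (X fun s => 0)) (ex z0 w) * ex z0 w := by
          rw [← hder]
          congr 1
          exact funext fun w => hG00 w
        change deriv (G (f.symm (b s j))) w / G (f.symm (b s j)) w - deriv (G 0) w / G 0 w = _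
        rw [e1, e2, hG0, hG00]
        ring
      have h6 : ‖Lf ⟨s, j⟩ w‖ ≤ SL := by
        rw [hSL]
        exact Finset.single_le_sum (f := fun x => ‖Lf x w‖) (fun x _ => norm_nonneg _)
          (Finset.mem_univ _)
      rw [h5, norm_mul] at h6
      rwa [le_div_iff₀ hexw]
    have h7 : ‖Fn K (ex z0 w)‖ * ‖G i w‖ = ∏ s, ‖Fn (h s * u s (f i s)) (ex z0 w)‖ := by
      have h8 : Fn (K * X (f i)) (ex z0 w) = ∏ s, Fn (h s * u s (f i s)) (ex z0 w) := by
        rw [hKX, Fn_prod _ fun s => (hw s).1]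
      rw [Fn_mul_at (hKreg _) (hXreg _ _)] at h8
      rw [← norm_prod, ← h8, norm_mul, hG]
    have h9 : ∏ s, ‖Fn (h s * u s (f i s)) (ex z0 w)‖ ≤
        ∏ s, C s (f i s) * (SL / ‖ex z0 w‖) ^ m :=
      Finset.prod_le_prod (fun s _ => norm_nonneg _) fun s _ => (hw s).2 _ (hlog s)
    have hSLn : 0 ≤ SL := by
      rw [hSL]
      exact Finset.sum_nonneg fun x _ => norm_nonneg _
    have h10 : ∏ s, C s (f i s) * (SL / ‖ex z0 w‖) ^ m =
        (∏ s, C s (f i s)) * (SL / ‖ex z0 w‖) ^ d := by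
      rw [Finset.prod_mul_distrib, Finset.prod_const, Finset.card_univ, ← pow_mul, hd]
    have h11 : ‖P w‖ = ‖Fn K (ex z0 w)‖ * ‖ex z0 w‖ ^ d := by
      rw [hP, norm_mul, norm_pow]
    rw [h10] at h9
    rw [h11, ← hSL]
    calc ‖Fn K (ex z0 w)‖ * ‖ex z0 w‖ ^ d * ‖G i w‖ =
          (‖Fn K (ex z0 w)‖ * ‖G i w‖) * ‖ex z0 w‖ ^ d := by ring
      _ ≤ ((∏ s, C s (f i s)) * (SL / ‖ex z0 w‖) ^ d) * ‖ex z0 w‖ ^ d := by
          rw [h7]
          exact mul_le_mul_of_nonneg_right h9 (by positivity)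
      _ = (∏ s, C s (f i s)) * SL ^ d := by
          rw [div_pow]
          field_simp
      _ ≤ CC * SL ^ d := mul_le_mul_of_nonneg_right (hCi i) (by positivity)
  have hlim : ‖P z‖ * ‖G i z‖ ≤ CC * (∑ x, ‖Lf x z‖) ^ d := by
    have c1 : Tendsto (fun w => ‖P w‖ * ‖G i w‖) (𝓝[≠] z) (𝓝 (‖P z‖ * ‖G i z‖)) :=
      ((hPd.continuous.norm.mul (hGd i).continuous.norm).continuousAt).tendsto.mono_left
        nhdsWithin_le_nhds
    have c2 : ContinuousAt (fun w => CC * (∑ x, ‖Lf x w‖) ^ d) z :=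
      continuousAt_const.mul ((tendsto_finsetSum _ fun x _ => (hLc x).norm).pow d)
    exact le_of_tendsto_of_tendsto c1 (c2.tendsto.mono_left nhdsWithin_le_nhds) hev
  refine hlim.trans ?_
  have h1 : ∑ x, ‖Lf x z‖ ≤ N * (Real.exp 1 * (1 / ε)) := by
    refine (Finset.sum_le_sum fun x _ => hLz x).trans (le_of_eq ?_)
    rw [Finset.sum_const, Finset.card_univ, Fintype.card_sigma, nsmul_eq_mul, hNd]
    simp
  have h2 : (∑ x, ‖Lf x z‖) ^ d ≤ (N * (Real.exp 1 * (1 / ε))) ^ d :=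
    pow_le_pow_left₀ (Finset.sum_nonneg fun x _ => norm_nonneg _) h1 d
  calc CC * (∑ x, ‖Lf x z‖) ^ d ≤ CC * (N * (Real.exp 1 * (1 / ε))) ^ d :=
        mul_le_mul_of_nonneg_left h2 hCC0
    _ = CC * (N * Real.exp 1) ^ d * (1 / ε) ^ d := by
        rw [← mul_assoc (N : ℝ), mul_pow (N * Real.exp 1)]
        ring
    _ ≤ max 1 (CC * (N * Real.exp 1) ^ d) * (1 / ε) ^ d :=
        mul_le_mul_of_nonneg_right (le_max_right _ _) (by positivity)

end Pool.Agent.K4H25.EN
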