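import Pool.Agent.K4H25.EN.E3

/-!
Entire curves in product-quotients.
-/

set_option autoImplicit false
set_option linter.overlappingInstances false
set_option linter.unusedSectionVars false
set_option linter.unusedVariables false
set_option maxHeartbeats 4000000
set_option synthInstance.maxHeartbeats 400000

open FF IntermediateField Filter Topology Pool.Agent.TH466.QG Pool.Agent.W619.PQ
  Pool.Agent.W619.PL Pool.Agent.W619.TW Pool.Agent.W603.LV Pool.Agent.K4H25.GQ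
  Pool.Agent.K4H25.GW Pool.Agent.K4H25.HY
open Pool.Agent.TH143.EL (MK cl MDer)
open Pool.Agent.K4H65.DM (plc plc_ord)

namespace Pool.Agent.K4H25.EN

section

variable {k : Type} [Field k] [CharZero k] [IsAlgClosed k] {M : Type} [Field M] [Algebra k M]
  {n : ℕ}

/-- the weights are at most one -/
theorem le_one {C : Fin n → IntermediateField k M} [hC : ∀ i, IsFF k (C i)]
    {G : Subgroup (M ≃ₐ[k] M)} [Finite G] (hst : ∀ g ∈ G, ∀ i, ∀ z ∈ C i, g z ∈ C i)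
    {α : Fin n → ℚ} (hα : ∀ i, 0 < α i)
    {δ : ∀ i, Place k ↥(C i ⊓ fixedField G) → ℚ} (h : HAge C G α δ)
    (hgen : ∀ i, ∃ w p, LiesOver (inf_le_left : C i ⊓ fixedField G ≤ C i) w p 1 ∧ δ i p = 0)
    (i : Fin n) (p : Place k ↥(C i ⊓ fixedField G)) : δ i p ≤ 1 := by
  classical
  let _ : Algebra ↥(C i ⊓ fixedField G) (C i) :=
    (inclusion (inf_le_left : C i ⊓ fixedField G ≤ C i)).toRingHom.toAlgebra
  have t1 : IsScalarTower k ↥(C i ⊓ fixedField G) (C i) :=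
    IsScalarTower.of_algebraMap_eq fun c => rfl
  have f1 : FiniteDimensional ↥(C i ⊓ fixedField G) (C i) :=
    inf_finite G (C i) (fun g hg => hst g hg i) fun z => rfl
  have f2 : IsFF k ↥(C i ⊓ fixedField G) := isFF_down (E := C i)
  obtain ⟨e, w, hw⟩ := exists_place_over (E := C i) p
  have hl : LiesOver (inf_le_left : C i ⊓ fixedField G ≤ C i) w p e := ⟨hw.1, fun f => hw.2 f⟩
  choose w0 p0 hw0 hδ0 using hgen
  have h1 := h 1 G.one_mem 1 (by
    rw [orderOf_one]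
    exact IsPrimitiveRoot.one) (Function.update w0 i w) (Function.update p0 i p)
    (Function.update (fun _ => 1) i e) (fun _ => 1) (fun j => by
      by_cases hj : j = i
      · subst hj
        rw [Function.update_self, Function.update_self, Function.update_self]
        exact hl
      · rw [Function.update_of_ne hj, Function.update_of_ne hj, Function.update_of_ne hj]
        exact hw0 j) (fun _ => one_pos) (fun j t z _ hz => by
      left
      rw [pow_one, map_one, one_mul, sub_eq_zero]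
      exact Subtype.ext hz.symm)
  rw [orderOf_one, ← Finset.add_sum_erase _ _ (Finset.mem_univ i),
    ← Finset.add_sum_erase _ (fun j => α j * (((Function.update (fun _ => 1) i e : Fin n → ℕ) j : ℚ) *
      (1 - δ j (Function.update p0 i p j)) * ((1 : ℕ) : ℚ))) (Finset.mem_univ i)] at h1
  rw [Function.update_self, Function.update_self] at h1
  have h4 : ∑ x ∈ Finset.univ.erase i, α x * (((Function.update (fun _ => 1) i e : Fin n → ℕ) x : ℚ) *
      (1 - δ x (Function.update p0 i p x)) * ((1 : ℕ) : ℚ)) = ∑ x ∈ Finset.univ.erase i, α x := by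
    refine Finset.sum_congr rfl fun x hx => ?_
    have hxi := Finset.ne_of_mem_erase hx
    rw [Function.update_of_ne hxi, Function.update_of_ne hxi, hδ0]
    norm_num
  rw [h4] at h1
  push_cast at h1
  rw [mul_one, mul_one] at h1
  have h2 : 1 ≤ (e : ℚ) * (1 - δ i p) := by
    have h3 := hα i
    by_contra hcon
    push Not at hcon
    nlinarith
  have h3 : (0 : ℚ) < e := by exact_mod_cast hw.1
  by_contra hcon
  push Not at hcon
  nlinarith

end

section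

variable {M : Type} [Field M] [Algebra ℂ M] {n : ℕ}

/-- The criterion at the points of the plane. -/
theorem plane_ineq {N : Type} [Field N] [Algebra ℂ N] (Γ : Subgroup (N ≃ₐ[ℂ] N)) [Finite Γ]
    {C : Fin n → IntermediateField ℂ M} [hC : ∀ i, IsFF ℂ (C i)]
    {G : Subgroup (M ≃ₐ[ℂ] M)} [Finite G]
    {α : Fin n → ℚ} {δ : ∀ i, Place ℂ ↥(C i ⊓ fixedField G) → ℚ} (h : HAge C G α δ)
    (hst : ∀ g ∈ G, ∀ i, ∀ z ∈ C i, g z ∈ C i)
    (hgen : ∀ i, ∃ w p, LiesOver (inf_le_left : C i ⊓ fixedField G ≤ C i) w p 1 ∧ δ i p = 0)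
    (I : Finset (Fin n)) (ι : ∀ i : I, C i →ₐ[ℂ] N)
    (hσ : ∀ σ ∈ Γ, ∃ g ∈ G, (∀ i ∉ I, ∀ z ∈ C i, g z = z) ∧
      (∀ (i : I) (z z' : C i), (z' : M) = g z → ι i z' = σ (ι i z)) ∧ orderOf g ∣ orderOf σ)
    (θ : MK ≃ₐ[ℂ] fixedField Γ) (κ : ∀ i : I, ↥(C i ⊓ fixedField G) →ₐ[ℂ] MK)
    (hκ : ∀ (i : I) (b : ↥(C i ⊓ fixedField G)), ((θ (κ i b) : fixedField Γ) : N) =
      ι i (inclusion (inf_le_left : C i ⊓ fixedField G ≤ C i) b))
    (z : ℂ) (pz : ∀ i : I, Place ℂ ↥(C i ⊓ fixedField G)) (kz : I → ℕ)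
    (hz : ∀ i, OverH (κ i) (plc z) (pz i) (kz i)) :
    ∑ i ∈ I, α i ≤ ∑ i : I, α i * ((kz i : ℚ) * (1 - δ i (pz i))) := by
  classical
  have hFFB : ∀ i, IsFF ℂ ↥(C i ⊓ fixedField G) := fun i => isFF_quo (C i) G
    (fun g hg => hst g hg i)
  have hfd : FiniteDimensional (fixedField Γ) N := fixed_finite Γ
  obtain ⟨v, hv⟩ : ∃ v : Place ℂ (fixedField Γ), v = pullP θ.symm (plc z) := ⟨_, rfl⟩
  obtain ⟨e, w, hw⟩ : ∃ (e : ℕ) (w : Place ℂ N), Over w v e := by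
    obtain ⟨S, T, -, hT, hsum⟩ := exists_places_over (K' := N) v
    have hpos : 0 < Module.finrank (fixedField Γ) N := Module.finrank_pos
    obtain ⟨w, hw⟩ : S.Nonempty := by
      rw [Finset.nonempty_iff_ne_empty]
      rintro rfl
      rw [Finset.sum_empty] at hsum
      omega
    obtain ⟨e, h, -⟩ := hT w hw
    exact ⟨e, w, h⟩
  have hwo : ∀ (i : I) (b : ↥(C i ⊓ fixedField G)),
      w.ord (ι i (inclusion (inf_le_left : C i ⊓ fixedField G ≤ C i) b)) =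
        e * (plc z).ord (κ i b) := by
    intro i b
    rw [← hκ]
    have h1 := hw.2 (θ (κ i b))
    change w.ord ((θ (κ i b) : fixedField Γ) : N) = _ at h1
    rw [h1, hv, pullP_ord, AlgEquiv.symm_apply_apply]
  have he : (1 : ℤ) ≤ e := by exact_mod_cast hw.1
  have hexw : ∀ i : I, ∃ v e, OverH (ι i) w v e := by
    intro i
    obtain ⟨b, hb⟩ := exists_value (κ i) z
    exact exists_overH_of (ι i) w
      (f := inclusion (inf_le_left : C i ⊓ fixedField G ≤ C i) b) (by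
        rw [hwo]
        exact mul_ne_zero (by omega) hb)
  choose ww f hf using hexw
  choose r p hp using fun i : I => exists_overH
    (inclusion (inf_le_left : C i ⊓ fixedField G ≤ C i)) (ww i)
  have h3 := local_ineq Γ h hgen I ι hσ hst hw ww f hf p r hp
  have h4 : ∀ i, f i * r i = e * kz i ∧ p i = pz i := by
    intro i
    refine ord_uniq (Nat.mul_pos (hf i).1 (hp i).1) (Nat.mul_pos hw.1 (hz i).1) fun b => ?_
    have h5 := (hf i).2 (inclusion (inf_le_left : C i ⊓ fixedField G ≤ C i) b)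
    rw [hwo, (hp i).2, (hz i).2] at h5
    push_cast
    linarith
  have h5 : ∑ i : I, α i * ((r i : ℚ) * (1 - δ i (p i)) * f i) =
      e * ∑ i : I, α i * ((kz i : ℚ) * (1 - δ i (pz i))) := by
    rw [Finset.mul_sum]
    refine Finset.sum_congr rfl fun i _ => ?_
    obtain ⟨h6, h7⟩ := h4 i
    rw [h7]
    have h8 : (f i : ℚ) * r i = e * kz i := by exact_mod_cast h6
    linear_combination α i * (1 - δ i (pz i)) * h8
  rw [h5] at h3
  have he : (0 : ℚ) < e := by exact_mod_cast hw.1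
  by_contra hcon
  push Not at hcon
  nlinarith

/-- **The specializations over the meromorphic functions are constant on the curves.** -/
theorem curve_const (C : Fin n → IntermediateField ℂ M) [hC : ∀ i, IsFF ℂ (C i)]
    (hsup : ⨆ i, C i = ⊤) (G : Subgroup (M ≃ₐ[ℂ] M)) [Finite G]
    (hst : ∀ g ∈ G, ∀ i, ∀ z ∈ C i, g z ∈ C i)
    {α : Fin n → ℚ} (hα : ∀ i, 0 < α i)
    {δ : ∀ i, Place ℂ ↥(C i ⊓ fixedField G) → ℚ} (h : HAge C G α δ)
    (T0 : ∀ i, Finset (Place ℂ ↥(C i ⊓ fixedField G))) (hT0 : ∀ i, ∀ q ∉ T0 i, δ i q = 0)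
    (hdeg : ∀ i, (0 : ℚ) < canDeg ℂ ↥(C i ⊓ fixedField G) + ∑ q ∈ T0 i, δ i q)
    (Y : ∀ i, Finset (C i))
    (hY : ∀ i, IntermediateField.adjoin ℂ ((fun z : C i => (z : M)) '' (Y i : Set (C i))) = C i) :
    ∃ (Θ0 Θ1 : Set M), Θ0.Finite ∧ Θ1.Finite ∧ (∀ z ∈ Θ0, z ∈ fixedField G) ∧
      (∀ i, ∀ y ∈ Y i, (y : M) ∈ Θ1) ∧
      ∀ (N : Type) [Field N] [Algebra ℂ N] (Γ : Subgroup (N ≃ₐ[ℂ] N)) [Finite Γ]
        (θ : MK ≃ₐ[ℂ] fixedField Γ) (S : Sp ℂ M N),
        (∀ ϑ ∈ Θ0, ∃ t ∈ fixedField Γ, S.T ϑ t) → (∀ ϑ ∈ Θ1, ∃ t, S.T ϑ t) →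
        ∀ i, ∀ y ∈ Y i, ∀ y', S.T (y : M) y' → IsAlgebraic ℂ y' := by
  classical
  have iG := Fintype.ofFinite G
  have hFFB : ∀ i, IsFF ℂ ↥(C i ⊓ fixedField G) := fun i => isFF_quo (C i) G
    (fun g hg => hst g hg i)
  -- the orbits of the generators
  obtain ⟨Z, hZ⟩ : ∃ Z : Set M, Z = ⋃ i, ⋃ g : G,
      (fun z : C i => (g : M ≃ₐ[ℂ] M) (z : M)) '' (Y i : Set (C i)) := ⟨_, rfl⟩
  have hZfin : Z.Finite := by
    rw [hZ]
    exact Set.finite_iUnion fun i => Set.finite_iUnion fun g => (Finset.finite_toSet _).image _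
  have hZmem : ∀ i, ∀ y ∈ Y i, ∀ g ∈ G, g (y : M) ∈ Z := by
    intro i y hy g hg
    rw [hZ]
    exact Set.mem_iUnion.2 ⟨i, Set.mem_iUnion.2 ⟨⟨g, hg⟩, y, hy, rfl⟩⟩
  have hZst : ∀ z ∈ Z, ∀ g ∈ G, g z ∈ Z := by
    intro z hz g hg
    rw [hZ] at hz
    obtain ⟨i, hz⟩ := Set.mem_iUnion.1 hz
    obtain ⟨g', hz⟩ := Set.mem_iUnion.1 hz
    obtain ⟨y, hy, rfl⟩ := hz
    exact hZmem i y hy (g * g') (G.mul_mem hg g'.2)
  have hYZ : ∀ i, ∀ y ∈ Y i, (y : M) ∈ Z := fun i y hy => hZmem i y hy 1 G.one_mem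
  obtain ⟨Θ0, Θ1, h0fin, h1fin, h0G, hgal⟩ := galois_spec (k := ℂ) G hZfin
  obtain ⟨Θ2, hΘ2⟩ : ∃ Θ2 : Set M, Θ2 = ⋃ g : G, (fun z : M => ((g : M ≃ₐ[ℂ] M) z - z)⁻¹) '' Z :=
    ⟨_, rfl⟩
  have h2fin : Θ2.Finite := by
    rw [hΘ2]
    exact Set.finite_iUnion fun g => hZfin.image _
  have h2mem : ∀ z ∈ Z, ∀ g ∈ G, (g z - z)⁻¹ ∈ Θ2 := by
    intro z hz g hg
    rw [hΘ2]
    exact Set.mem_iUnion.2 ⟨⟨g, hg⟩, z, hz, rfl⟩
  refine ⟨Θ0, Θ1 ∪ (Θ2 ∪ Z), h0fin, h1fin.union (h2fin.union hZfin), h0G,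
    fun i y hy => Or.inr (Or.inr (hYZ i y hy)), ?_⟩
  intro N _ _ Γ _ θ S hS0 hS1
  have hfdN : FiniteDimensional (fixedField Γ) N := fixed_finite Γ
  have hZS : ∀ z ∈ Z, ∃ t, S.T z t := fun z hz => hS1 z (Or.inr (Or.inr hz))
  have hback : ∀ z ∈ Z, ∀ g ∈ G, ∀ z' : N, S.T (g z) z' → S.T z z' → g z = z := by
    intro z hz g hg z' h1 h2
    have h3 := S.sub h1 h2
    rw [sub_self] at h3
    exact sub_eq_zero.1 (S.back h3 (hS1 _ (Or.inr (Or.inl (h2mem z hz g hg)))) rfl)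
  have hact : ∀ σ ∈ Γ, ∃ g ∈ G, ∀ y ∈ Z, ∀ y', S.T y y' → S.T (g y) (σ y') := by
    intro σ hσ
    refine hgal N S σ (fun ϑ hϑ => ?_) (fun ϑ hϑ => hS1 ϑ (Or.inl hϑ))
    obtain ⟨t, ht, hst⟩ := hS0 ϑ hϑ
    exact ⟨t, hst, ht ⟨σ, hσ⟩⟩
  -- the curves on which the specialization is not constant
  obtain ⟨I, hI⟩ : ∃ I : Finset (Fin n), ∀ i, i ∈ I ↔
      ∃ y ∈ Y i, ∃ y', S.T (y : M) y' ∧ Transcendental ℂ y' :=
    ⟨Finset.univ.filter fun i => ∃ y ∈ Y i, ∃ y', S.T (y : M) y' ∧ Transcendental ℂ y',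
      fun i => by simp⟩
  have halg : ∀ i ∉ I, ∀ y ∈ Y i, ∀ y', S.T (y : M) y' → IsAlgebraic ℂ y' := by
    intro i hi y hy y' hyy'
    by_contra hcon
    exact hi ((hI i).2 ⟨y, hy, y', hyy', hcon⟩)
  have hex : ∀ i : I, ∃ ι : C i →ₐ[ℂ] N, ∀ (z : C i) (z' : N), S.T (z : M) z' → ι z = z' := by
    intro i
    obtain ⟨y, hy, y', hyy', htr⟩ := (hI i).1 i.2
    refine exists_embed S (C i) (hY i) ?_ y.2 hyy' htr
    rintro _ ⟨z, hz, rfl⟩
    exact hZS _ (hYZ i z hz)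
  choose ι hι using hex
  have hσ : ∀ σ ∈ Γ, ∃ g ∈ G, (∀ i ∉ I, ∀ z ∈ C i, g z = z) ∧
      (∀ (i : I) (z z' : C i), (z' : M) = g z → ι i z' = σ (ι i z)) ∧
        orderOf g ∣ orderOf σ := by
    intro σ hσΓ
    obtain ⟨g, hg, hgS⟩ := hact σ hσΓ
    refine ⟨g, hg, ?_, ?_, ?_⟩
    · intro i hi
      refine fix_adjoin (hY i) ?_
      rintro _ ⟨y, hy, rfl⟩
      obtain ⟨y', hy'⟩ := hZS _ (hYZ i y hy)
      have h1 := halg i hi y hy y' hy'
      obtain ⟨c, rfl⟩ := minpoly.mem_range_of_degree_eq_one ℂ y'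
        (IsAlgClosed.degree_eq_one_of_irreducible ℂ (minpoly.irreducible h1.isIntegral))
      have h2 := hgS _ (hYZ i y hy) _ hy'
      rw [AlgEquiv.commutes] at h2
      exact hback _ (hYZ i y hy) g hg _ h2 hy'
    · intro i z z' hz'
      have h1 : (ι i).comp ((rho G (C i) (fun g hg => hst g hg i) ⟨g, hg⟩ :
          C i ≃ₐ[ℂ] C i) : C i →ₐ[ℂ] C i) = (σ : N →ₐ[ℂ] N).comp (ι i) := by
        refine algHom_ext_of_eq_adjoin ℂ (hY i).symm ?_
        rintro _ ⟨y, hy, rfl⟩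
        obtain ⟨y', hy'⟩ := hZS _ (hYZ i y hy)
        have h2 := hgS _ (hYZ i y hy) _ hy'
        have h3 := hι i y y' hy'
        have h4 := hι i (rho G (C i) (fun g hg => hst g hg i) ⟨g, hg⟩ y) (σ y') h2
        change ι i (rho G (C i) (fun g hg => hst g hg i) ⟨g, hg⟩ y) = σ (ι i y)
        rw [h3, h4]
      have h2 := congrArg (fun φ : C i →ₐ[ℂ] N => φ z) h1
      have h3 : z' = rho G (C i) (fun g hg => hst g hg i) ⟨g, hg⟩ z := Subtype.ext hz'
      rw [h3]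
      exact h2
    · apply orderOf_dvd_of_pow_eq_one
      have h1 : ∀ m : ℕ, ∀ y ∈ Z, ∀ y', S.T y y' → S.T ((g ^ m) y) ((σ ^ m) y') := by
        intro m
        induction m with
        | zero =>
          intro y _ y' hyy'
          exact hyy'
        | succ m ih =>
          intro y hy y' hyy'
          rw [pow_succ', pow_succ']
          exact hgS _ (hZst y hy _ (G.pow_mem hg m)) _ (ih y hy y' hyy')
      have h2 : ∀ i, ∀ z ∈ C i, (g ^ orderOf σ) z = z := by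
        intro i
        refine fix_adjoin (hY i) ?_
        rintro _ ⟨y, hy, rfl⟩
        obtain ⟨y', hy'⟩ := hZS _ (hYZ i y hy)
        have h3 := h1 (orderOf σ) _ (hYZ i y hy) y' hy'
        rw [pow_orderOf_eq_one] at h3
        exact hback _ (hYZ i y hy) _ (G.pow_mem hg _) _ h3 hy'
      have h3 : (⨆ i, C i) ≤ fixedField (Subgroup.zpowers (g ^ orderOf σ)) := by
        refine iSup_le fun i z hz => ?_
        have h4 : Subgroup.zpowers (g ^ orderOf σ) ≤ MulAction.stabilizer (M ≃ₐ[ℂ] M) z :=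
          (Subgroup.zpowers_le).2 (MulAction.mem_stabilizer_iff.2 (h2 i z hz))
        intro u
        exact MulAction.mem_stabilizer_iff.1 (h4 u.2)
      apply AlgEquiv.ext
      intro z
      have h4 : z ∈ fixedField (Subgroup.zpowers (g ^ orderOf σ)) := by
        apply h3
        rw [hsup]
        exact IntermediateField.mem_top
      exact h4 ⟨_, Subgroup.mem_zpowers _⟩
  -- the quotients of the curves
  have hfix : ∀ (i : I) (c : ↥(C i ⊓ fixedField G)),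
      ι i (inclusion (inf_le_left : C i ⊓ fixedField G ≤ C i) c) ∈ fixedField Γ := by
    rintro i c ⟨σ, hσΓ⟩
    obtain ⟨g, hg, -, h2, -⟩ := hσ σ hσΓ
    have h3 : ((inclusion (inf_le_left : C i ⊓ fixedField G ≤ C i) c : C i) : M) =
        g ((inclusion (inf_le_left : C i ⊓ fixedField G ≤ C i) c : C i) : M) :=
      (c.2.2 ⟨g, hg⟩).symm
    exact (h2 i _ _ h3).symm
  obtain ⟨κ, hκ⟩ : ∃ κ : ∀ i : I, ↥(C i ⊓ fixedField G) →ₐ[ℂ] fixedField Γ,
      ∀ (i : I) (b : ↥(C i ⊓ fixedField G)), ((κ i b : fixedField Γ) : N) =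
        ι i (inclusion (inf_le_left : C i ⊓ fixedField G ≤ C i) b) :=
    ⟨fun i => ((ι i).comp (inclusion (inf_le_left : C i ⊓ fixedField G ≤ C i))).codRestrict
      (fixedField Γ).toSubalgebra (hfix i),
      fun i b => rfl⟩

  -- the quotients of the curves
  have hgen : ∀ i, ∃ w p, LiesOver (inf_le_left : C i ⊓ fixedField G ≤ C i) w p 1 ∧
      δ i p = 0 := by
    intro i
    obtain ⟨w, p, h1, h2⟩ := general_place (C i) G (fun g hg => hst g hg i) (T0 i)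
    exact ⟨w, p, h1, hT0 i p h2⟩
  obtain ⟨κ', hκ'⟩ : ∃ κ' : ∀ i : I, ↥(C i ⊓ fixedField G) →ₐ[ℂ] MK,
      ∀ (i : I) (b : ↥(C i ⊓ fixedField G)), κ' i b = θ.symm (κ i b) :=
    ⟨fun i => (θ.symm : fixedField Γ →ₐ[ℂ] MK).comp (κ i), fun i b => rfl⟩
  have hκ2 : ∀ (i : I) (b : ↥(C i ⊓ fixedField G)), ((θ (κ' i b) : fixedField Γ) : N) =
      ι i (inclusion (inf_le_left : C i ⊓ fixedField G ≤ C i) b) := by
    intro i b
    rw [hκ', AlgEquiv.apply_symm_apply, hκ]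
  have hIe : I = ∅ := by
    by_contra hne
    obtain ⟨i0, hi0⟩ := Finset.nonempty_iff_ne_empty.2 hne
    choose r u hu0 hune htr m0 hm0 hform using fun i : I => curve_pull (κ' i) (δ i)
      (fun p => le_one hst hα h hgen i p) (T0 i) (hT0 i) (hdeg i)
    obtain ⟨m, hm, hqm⟩ : ∃ m : ℕ, 1 ≤ m ∧ ∀ i, ∃ q, 1 ≤ q ∧ q * m0 i = m := by
      refine ⟨∏ i, m0 i, Nat.succ_le_of_lt (Finset.prod_pos fun i _ => hm0 i), fun i =>
        ⟨∏ j ∈ Finset.univ.erase i, m0 j, Nat.succ_le_of_lt (Finset.prod_pos fun j _ => hm0 j), ?_⟩⟩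
      exact Finset.prod_erase_mul _ _ (Finset.mem_univ i)
    choose q hq1 hq using hqm
    choose hh hh0 hh1 hh2 using fun i : I => hform i (q i) (hq1 i)
    simp only [hq] at hh1 hh2
    -- integral weights
    obtain ⟨D, hD, a, ha, haα⟩ : ∃ D : ℚ, 0 < D ∧ ∃ a : I → ℕ, (∀ i, 1 ≤ a i) ∧
        ∀ i, (a i : ℚ) = D * α i := by
      refine ⟨∏ j : I, ((α j).den : ℚ), Finset.prod_pos fun j _ => by
        exact_mod_cast (α j).den_pos, fun i =>
        (∏ j ∈ Finset.univ.erase i, (α (j : I)).den) * (α i).num.toNat, fun i => ?_, fun i => ?_⟩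
      · refine Nat.mul_pos (Finset.prod_pos fun j _ => (α j).den_pos) ?_
        have h1 : 0 < (α i).num := Rat.num_pos.2 (hα i)
        omega
      · have h1 : (((α i).num.toNat : ℕ) : ℚ) = ((α i).num : ℚ) := by
          have h2 : (((α i).num.toNat : ℕ) : ℤ) = (α i).num :=
            Int.toNat_of_nonneg (Rat.num_pos.2 (hα i)).le
          exact_mod_cast h2
        have h2 : ((α i).den : ℚ) * α i = (α i).num := Rat.den_mul_eq_num _
        push_cast
        rw [h1, ← Finset.prod_erase_mul Finset.univ (fun j : I => ((α j).den : ℚ))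
          (Finset.mem_univ i), mul_assoc, h2]
    have hne' : Nonempty (Σ i : I, Fin (a i)) := ⟨⟨⟨i0, hi0⟩, ⟨0, ha _⟩⟩⟩
    refine no_maps (S := Σ i : I, Fin (a i)) (fun s => r s.1) (fun s => u s.1)
      (fun s => hh s.1) m (fun s => hu0 s.1) (fun s => hune s.1)
      ⟨⟨⟨i0, hi0⟩, ⟨0, ha _⟩⟩, htr ⟨i0, hi0⟩⟩ (fun s => hh0 s.1) ?_ (fun s l => hh2 s.1 l)
    intro z l
    choose pz kz hz using fun i : I => exists_overH_plc (κ' i) z
    have h1 := plane_ineq Γ h hst hgen I ι hσ θ κ' hκ2 z pz kz hz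
    have h2 : ((∑ s : (Σ i : I, Fin (a i)), (m : ℚ) * (kz s.1 * (1 - δ s.1 (pz s.1)) - 1) : ℚ)) ≤
        ((∑ s : (Σ i : I, Fin (a i)), (plc z).ord (hh s.1 * u s.1 (l s)) : ℤ) : ℚ) := by
      push_cast
      exact Finset.sum_le_sum fun s _ => hh1 s.1 z _ _ (hz s.1) (l s)
    have h3 : ∑ s : (Σ i : I, Fin (a i)), (m : ℚ) * (kz s.1 * (1 - δ s.1 (pz s.1)) - 1) =
        m * D * (∑ i : I, α i * ((kz i : ℚ) * (1 - δ i (pz i))) - ∑ i ∈ I, α i) := by
      rw [Fintype.sum_sigma, ← Finset.sum_coe_sort I (fun i : Fin n => α i),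
        ← Finset.sum_sub_distrib, Finset.mul_sum]
      refine Finset.sum_congr rfl fun i _ => ?_
      change ∑ y : Fin (a i), (m : ℚ) * (kz i * (1 - δ i (pz i)) - 1) = _
      rw [Finset.sum_const, Finset.card_univ, Fintype.card_fin, nsmul_eq_mul, haα]
      ring
    rw [h3] at h2
    have h4 : (0 : ℚ) ≤ m * D * (∑ i : I, α i * ((kz i : ℚ) * (1 - δ i (pz i))) -
        ∑ i ∈ I, α i) := mul_nonneg (by positivity) (by linarith)
    exact_mod_cast h4.trans h2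
  intro i y hy y' hyy'
  exact halg i (by rw [hIe]; exact Finset.notMem_empty i) y hy y' hyy'

end

end Pool.Agent.K4H25.EN
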