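import Pool.Agent.K4H25.EN.E4
import Pool.Agent.R882.KC

/-!
Several meromorphic functions on the plane with a joint condition on their ramification.
-/

set_option autoImplicit false
set_option linter.overlappingInstances false
set_option linter.unusedSectionVars false
set_option linter.unusedVariables false
set_option maxHeartbeats 4000000
set_option synthInstance.maxHeartbeats 400000

open FF IntermediateField Filter Topology Pool.Agent.W619.PQ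
  Pool.Agent.W619.PL Pool.Agent.W619.TW Pool.Agent.W603.LV Pool.Agent.K4H25.HY
  Pool.Agent.Y221.AB
open Pool.Agent.TH143.EL (MK cl MDer)
open Pool.Agent.K4H65.DM (plc plc_ord)

namespace Pool.Agent.K4H25.EN

/-- **No maps with enough joint ramification.** -/
theorem no_maps_weighted {ι : Type} [Fintype ι] [Nonempty ι] (B : ι → Type) [∀ i, Field (B i)]
    [∀ i, Algebra ℂ (B i)] [∀ i, IsFF ℂ (B i)] (κ : ∀ i, B i →ₐ[ℂ] MK) {α : ι → ℚ}
    (hα : ∀ i, 0 < α i) {δ : ∀ i, Place ℂ (B i) → ℚ} (hδ : ∀ i p, δ i p ≤ 1)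
    (T : ∀ i, Finset (Place ℂ (B i))) (hT : ∀ i, ∀ q ∉ T i, δ i q = 0)
    (hdeg : ∀ i, (0 : ℚ) < canDeg ℂ (B i) + ∑ q ∈ T i, δ i q)
    (hloc : ∀ (z : ℂ) (pz : ∀ i, Place ℂ (B i)) (kz : ι → ℕ),
      (∀ i, OverH (κ i) (plc z) (pz i) (kz i)) →
        0 ≤ ∑ i, α i * ((kz i : ℚ) * (1 - δ i (pz i)) - 1)) : False := by
  classical
  choose r u hu0 hune htr m0 hm0 hform using fun i => curve_pull (κ i) (δ i) (hδ i) (T i) (hT i)
    (hdeg i)
  obtain ⟨m, hm, hqm⟩ : ∃ m : ℕ, 1 ≤ m ∧ ∀ i, ∃ q, 1 ≤ q ∧ q * m0 i = m := by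
    refine ⟨∏ i, m0 i, Nat.succ_le_of_lt (Finset.prod_pos fun i _ => hm0 i), fun i =>
      ⟨∏ j ∈ Finset.univ.erase i, m0 j,
        Nat.succ_le_of_lt (Finset.prod_pos fun j _ => hm0 j), ?_⟩⟩
    exact Finset.prod_erase_mul _ _ (Finset.mem_univ i)
  choose q hq1 hq using hqm
  choose hh hh0 hh1 hh2 using fun i => hform i (q i) (hq1 i)
  simp only [hq] at hh1 hh2
  -- integral weights
  obtain ⟨D, hD, a, ha, haα⟩ : ∃ D : ℚ, 0 < D ∧ ∃ a : ι → ℕ, (∀ i, 1 ≤ a i) ∧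
      ∀ i, (a i : ℚ) = D * α i := by
    refine ⟨∏ j, ((α j).den : ℚ), Finset.prod_pos fun j _ => by
      exact_mod_cast (α j).den_pos, fun i =>
      (∏ j ∈ Finset.univ.erase i, (α j).den) * (α i).num.toNat, fun i => ?_, fun i => ?_⟩
    · refine Nat.mul_pos (Finset.prod_pos fun j _ => (α j).den_pos) ?_
      have h1 : 0 < (α i).num := Rat.num_pos.2 (hα i)
      omega
    · have h1 : (((α i).num.toNat : ℕ) : ℚ) = ((α i).num : ℚ) := by
        have h2 : (((α i).num.toNat : ℕ) : ℤ) = (α i).num :=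
          Int.toNat_of_nonneg (Rat.num_pos.2 (hα i)).le
        exact_mod_cast h2
      have h2 : ((α i).den : ℚ) * α i = (α i).num := Rat.den_mul_eq_num _
      push_cast
      rw [h1, ← Finset.prod_erase_mul Finset.univ (fun j => ((α j).den : ℚ))
        (Finset.mem_univ i), mul_assoc, h2]
  obtain ⟨i0⟩ : Nonempty ι := inferInstance
  have hne' : Nonempty (Σ i : ι, Fin (a i)) := ⟨⟨i0, ⟨0, ha _⟩⟩⟩
  refine no_maps (S := Σ i : ι, Fin (a i)) (fun s => r s.1) (fun s => u s.1)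
    (fun s => hh s.1) m (fun s => hu0 s.1) (fun s => hune s.1)
    ⟨⟨i0, ⟨0, ha _⟩⟩, htr i0⟩ (fun s => hh0 s.1) ?_ (fun s l => hh2 s.1 l)
  intro z l
  choose pz kz hz using fun i => exists_overH_plc (κ i) z
  have h1 := hloc z pz kz hz
  have h2 : ((∑ s : (Σ i : ι, Fin (a i)), (m : ℚ) * (kz s.1 * (1 - δ s.1 (pz s.1)) - 1) : ℚ)) ≤
      ((∑ s : (Σ i : ι, Fin (a i)), (plc z).ord (hh s.1 * u s.1 (l s)) : ℤ) : ℚ) := by
    push_cast
    exact Finset.sum_le_sum fun s _ => hh1 s.1 z _ _ (hz s.1) (l s)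
  have h3 : ∑ s : (Σ i : ι, Fin (a i)), (m : ℚ) * (kz s.1 * (1 - δ s.1 (pz s.1)) - 1) =
      m * D * ∑ i, α i * ((kz i : ℚ) * (1 - δ i (pz i)) - 1) := by
    rw [Fintype.sum_sigma, Finset.mul_sum]
    refine Finset.sum_congr rfl fun i _ => ?_
    change ∑ y : Fin (a i), (m : ℚ) * (kz i * (1 - δ i (pz i)) - 1) = _
    rw [Finset.sum_const, Finset.card_univ, Fintype.card_fin, nsmul_eq_mul, haα]
    ring
  rw [h3] at h2
  have h4 : (0 : ℚ) ≤ m * D * ∑ i, α i * ((kz i : ℚ) * (1 - δ i (pz i)) - 1) :=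
    mul_nonneg (by positivity) h1
  exact_mod_cast h4.trans h2

theorem transc_of_ne {τ : MK} (hτ : ∀ c : ℂ, τ ≠ algebraMap ℂ MK c) : Transcendental ℂ τ := by
  intro halg
  obtain ⟨c, hc⟩ := minpoly.mem_range_of_degree_eq_one ℂ τ
    (IsAlgClosed.degree_eq_one_of_irreducible ℂ (minpoly.irreducible halg.isIntegral))
  exact hτ c hc.symm

theorem isFF_simple' {τ : MK} (hτ : Transcendental ℂ τ) : IsFF ℂ ℂ⟮τ⟯ := by
  have htop : ℂ⟮(⟨τ, mem_adjoin_simple_self ℂ τ⟩ : ℂ⟮τ⟯)⟯ = ⊤ := Pool.Agent.R882.KR.gen_top τ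
  refine IsFF.of_finite (f := (⟨τ, mem_adjoin_simple_self ℂ τ⟩ : ℂ⟮τ⟯)) ?_ ?_
  · intro h
    exact hτ (h.algebraMap (A := MK))
  · rw [htop]
    exact Module.Finite.of_surjective (Algebra.linearMap (⊤ : IntermediateField ℂ ℂ⟮τ⟯) ℂ⟮τ⟯)
      fun x => ⟨⟨x, trivial⟩, rfl⟩

/-- The places of the field of rational functions of `τ`. -/
theorem line_data {τ : MK} (hτ : Transcendental ℂ τ) (A : Finset ℂ) (δ : ℂ → ℚ)
    (hδ : ∀ c, δ c ≤ 1) (hA : ∀ c ∉ A, δ c = 0) (hsum : 2 < ∑ c ∈ A, δ c) :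
    ∃ (δ' : Place ℂ ℂ⟮τ⟯ → ℚ) (T : Finset (Place ℂ ℂ⟮τ⟯)), (∀ P, δ' P ≤ 1) ∧
      (∀ P ∉ T, δ' P = 0) ∧ (0 : ℚ) < canDeg ℂ ℂ⟮τ⟯ + ∑ P ∈ T, δ' P ∧
      ∀ z P e, OverH (ℂ⟮τ⟯.val) (plc z) P e →
        (∃ c : ℂ, 0 < (plc z).ord (τ - algebraMap ℂ MK c) ∧
          (e : ℤ) = (plc z).ord (τ - algebraMap ℂ MK c) ∧ δ' P = δ c) ∨
        ((plc z).ord τ < 0 ∧ (e : ℤ) = -(plc z).ord τ ∧ δ' P = 0) := by
  classical
  have hFF := isFF_simple' hτ
  obtain ⟨x, hx⟩ : ∃ x : ℂ⟮τ⟯, x = ⟨τ, mem_adjoin_simple_self ℂ τ⟩ := ⟨_, rfl⟩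
  have hxτ : (x : MK) = τ := by rw [hx]
  have htop : ℂ⟮x⟯ = ⊤ := by
    rw [hx]
    exact Pool.Agent.R882.KR.gen_top τ
  have hcan : canDeg ℂ ℂ⟮τ⟯ = -2 := canDeg_rational htop
  have hxt := transcendental_of_top htop
  choose P0 hP0 hP0u using fun c : ℂ => zero_unique (top_sub htop c)
  obtain ⟨Pi, hPi, hPiu⟩ := pole_unique htop
  have hne : ∀ c : ℂ, x - algebraMap ℂ ℂ⟮τ⟯ c ≠ 0 := fun c => sub_const_ne hxt c
  have hinj : ∀ c c' : ℂ, P0 c = P0 c' → c = c' := by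
    intro c c' h
    by_contra hcc
    have h1 := hP0 c
    have h2 := hP0 c'
    rw [← h] at h2
    have h3 : Ge (P0 c) 1 (x - algebraMap ℂ ℂ⟮τ⟯ c) := Or.inr h1.ge
    have h4 : Ge (P0 c) 1 (x - algebraMap ℂ ℂ⟮τ⟯ c') := Or.inr h2.ge
    have h5 := h3.sub h4
    have h6 : x - algebraMap ℂ ℂ⟮τ⟯ c - (x - algebraMap ℂ ℂ⟮τ⟯ c') =
        algebraMap ℂ ℂ⟮τ⟯ (c' - c) := by
      rw [map_sub]
      ring
    rw [h6] at h5
    have h7 : c' - c ≠ 0 := sub_ne_zero.2 (Ne.symm hcc)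
    rcases h5 with h5 | h5
    · exact (_root_.map_ne_zero (algebraMap ℂ ℂ⟮τ⟯)).2 h7 h5
    · rw [(P0 c).ord_const h7] at h5
      omega
  obtain ⟨δ', hδ'1, hδ'2⟩ : ∃ δ' : Place ℂ ℂ⟮τ⟯ → ℚ, (∀ c, δ' (P0 c) = δ c) ∧
      ∀ P, (∀ c, P ≠ P0 c) → δ' P = 0 := by
    refine ⟨fun P => if h : ∃ c, P = P0 c then δ h.choose else 0, fun c => ?_, fun P hP => ?_⟩
    · beta_reduce
      have h : ∃ c', P0 c = P0 c' := ⟨c, rfl⟩
      rw [dif_pos h, ← hinj c _ h.choose_spec]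
    · beta_reduce
      rw [dif_neg]
      rintro ⟨c, hc⟩
      exact hP c hc
  refine ⟨δ', A.image P0, fun P => ?_, fun P hP => ?_, ?_, fun z P e hPe => ?_⟩
  · by_cases h : ∃ c, P = P0 c
    · obtain ⟨c, rfl⟩ := h
      rw [hδ'1]
      exact hδ c
    · push Not at h
      rw [hδ'2 P h]
      norm_num
  · by_cases h : ∃ c, P = P0 c
    · obtain ⟨c, rfl⟩ := h
      rw [hδ'1]
      exact hA c fun hc => hP (Finset.mem_image_of_mem _ hc)
    · push Not at h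
      exact hδ'2 P h
  · rw [hcan, Finset.sum_image (fun c _ c' _ h => hinj c c' h)]
    simp only [hδ'1]
    push_cast
    linarith
  · have hord : ∀ f : ℂ⟮τ⟯, (plc z).ord (f : MK) = e * P.ord f := fun f => hPe.2 f
    have he : (1 : ℤ) ≤ e := by exact_mod_cast hPe.1
    by_cases h0 : 0 ≤ P.ord x
    · left
      obtain ⟨c, hc⟩ := exists_const P (f := x) (Or.inr h0)
      have h1 := hc.resolve_left (hne c)
      have h2 : P = P0 c := hP0u c P (by omega)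
      have h3 := hord (x - algebraMap ℂ ℂ⟮τ⟯ c)
      have h4 : ((x - algebraMap ℂ ℂ⟮τ⟯ c : ℂ⟮τ⟯) : MK) = τ - algebraMap ℂ MK c := by
        exact congrArg (fun w => w - algebraMap ℂ MK c) hxτ
      rw [h4, h2, hP0, mul_one] at h3
      refine ⟨c, by rw [h3]; omega, h3.symm, ?_⟩
      rw [h2, hδ'1]
    · right
      push Not at h0
      have h2 : P = Pi := hPiu P h0
      have h3 := hord x
      rw [hxτ, h2, hPi] at h3
      refine ⟨by rw [h3]; omega, by rw [h3]; ring, hδ'2 P fun c hc => ?_⟩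
      have h4 := hP0 c
      rw [← hc] at h4
      have h5 : Ge P 1 (x - algebraMap ℂ ℂ⟮τ⟯ c) := Or.inr h4.ge
      have h6 : Ge P 0 x := by
        have h7 := (h5.mono (show (0 : ℤ) ≤ 1 by norm_num)).add (Ge.const (P := P) c)
        rwa [sub_add_cancel] at h7
      rcases h6 with h6 | h6
      · rw [h6, P.ord_zero] at h0
        exact lt_irrefl _ h0
      · omega

/-- **Several meromorphic functions with a joint condition on the ramification.** -/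
theorem joint {ι : Type} [Fintype ι] [Nonempty ι] (τ : ι → MK)
    (hτ : ∀ i, ∀ c : ℂ, τ i ≠ algebraMap ℂ MK c) {α : ι → ℚ} (hα : ∀ i, 0 < α i)
    (A : ι → Finset ℂ) {δ : ι → ℂ → ℚ} (hδ : ∀ i c, δ i c ≤ 1) (hA : ∀ i, ∀ c ∉ A i, δ i c = 0)
    (hsum : ∀ i, 2 < ∑ c ∈ A i, δ i c)
    (hloc : ∀ (z : ℂ) (s : ι → ℚ), (∀ i, (∃ c : ℂ, 0 < (plc z).ord (τ i - algebraMap ℂ MK c) ∧
        s i = (plc z).ord (τ i - algebraMap ℂ MK c) * (1 - δ i c) - 1) ∨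
        ((plc z).ord (τ i) < 0 ∧ s i = -(plc z).ord (τ i) - 1)) →
      0 ≤ ∑ i, α i * s i) : False := by
  have hFF : ∀ i, IsFF ℂ ℂ⟮τ i⟯ := fun i => isFF_simple' (transc_of_ne (hτ i))
  choose δ' T h1 h2 h3 h4 using fun i => line_data (transc_of_ne (hτ i)) (A i) (δ i) (hδ i)
    (hA i) (hsum i)
  refine no_maps_weighted (fun i => ℂ⟮τ i⟯) (fun i => ℂ⟮τ i⟯.val) hα h1 T h2 h3
    fun z pz kz hz => ?_
  refine hloc z (fun i => (kz i : ℚ) * (1 - δ' i (pz i)) - 1) fun i => ?_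
  rcases h4 i z (pz i) (kz i) (hz i) with ⟨c, hc, he, hd⟩ | ⟨hc, he, hd⟩
  · left
    refine ⟨c, hc, ?_⟩
    rw [hd, ← he]
    push_cast
    ring
  · right
    refine ⟨hc, ?_⟩
    have h5 : ((kz i : ℤ) : ℚ) = ((-(plc z).ord (τ i) : ℤ) : ℚ) := by rw [he]
    push_cast at h5
    rw [hd, h5]
    ring

end Pool.Agent.K4H25.EN
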