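import Pool.Agent.Y221.FQ.Defs
import Pool.Agent.Helper386.D5V.Helper386_FF_Place

/-!
Rational maps to projective lines with jointly multiple fibres.
-/

set_option autoImplicit false

open FF Pool.Agent.W602.GT

namespace Pool.Agent.K4H25.EN

variable {m n : ℕ} {κ υ : Type}

/-- A rational map from the projective variety `{Ψ = 0}` to the projective line, given by the pairs of
forms `(h.1 : h.2)`, `h ∈ pairs`, of the same degree. It is defined at the points at which some of
these forms do not vanish. -/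
structure LineRat (Ψ : κ → MvPolynomial (Fin (m + 1)) ℂ) where
  pairs : Set (MvPolynomial (Fin (m + 1)) ℂ × MvPolynomial (Fin (m + 1)) ℂ)
  form : ∀ h ∈ pairs, ∃ d, h.1.IsHomogeneous d ∧ h.2.IsHomogeneous d
  glue : ∀ h ∈ pairs, ∀ h' ∈ pairs, ∀ x ∈ Cone Ψ,
    val x h.1 * val x h'.2 = val x h'.1 * val x h.2

variable {Ψ : κ → MvPolynomial (Fin (m + 1)) ℂ}

/-- The point `u` of `{Ψ = 0}` (with coordinates in a field `E ⊃ ℂ`) is in the fibre of `b` over
`(q 0 : q 1)`. The points at which `b` is not defined are in all fibres. -/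
def LineRat.Fibre (b : LineRat Ψ) {E : Type} [Field E] [Algebra ℂ E] (u : Fin (m + 1) → E)
    (q : Fin 2 → ℂ) : Prop :=
  q ≠ 0 ∧ ∀ h ∈ b.pairs, algebraMap ℂ E (q 0) * val u h.2 = algebraMap ℂ E (q 1) * val u h.1

/-- `b` is defined at the point `u` of `{Ψ = 0}` (with coordinates in a field `E ⊃ ℂ`), and its value
is `(τ : 1)`. -/
def LineRat.Value (b : LineRat Ψ) {E : Type} [Field E] [Algebra ℂ E] (u : Fin (m + 1) → E)
    (τ : E) : Prop :=
  ∃ h ∈ b.pairs, val u h.2 ≠ 0 ∧ τ = val u h.1 / val u h.2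

/-- An arc in the projective variety `{Ψ = 0}` which is not contained in the closed subset
`{Θ = 0}`: a point `u` of `{Ψ = 0}` which is not in `{Θ = 0}`, with coordinates in a field `F ⊃ ℂ` with a
discrete valuation `P` which is trivial on `ℂ` and has the residue field `ℂ`. -/
structure IsArc (Ψ : κ → MvPolynomial (Fin (m + 1)) ℂ) (Θ : υ → MvPolynomial (Fin (m + 1)) ℂ)
    {F : Type} [Field F] [Algebra ℂ F] (P : Place ℂ F) (u : Fin (m + 1) → F) : Prop where
  res : ∀ x : F, P.Reg x → ∃ c : ℂ, x = algebraMap ℂ F c ∨ 0 < P.ord (x - algebraMap ℂ F c)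
  ne : u ≠ 0
  mem : ∀ e, val u (Ψ e) = 0
  off : ∃ e, val u (Θ e) ≠ 0

/-- `s = k (1 - δ c) - 1`, where `c` is the value of the function `τ` at `P`, `k` the multiplicity with
which it takes this value, and `δ ∞ = 0`. -/
def Excess {F : Type} [Field F] [Algebra ℂ F] (P : Place ℂ F) (δ : ℂ → ℚ) (τ : F) (s : ℚ) : Prop :=
  (∃ c : ℂ, 0 < P.ord (τ - algebraMap ℂ F c) ∧
    s = P.ord (τ - algebraMap ℂ F c) * (1 - δ c) - 1) ∨ (P.ord τ < 0 ∧ s = -P.ord τ - 1)

/-- **Jointly multiple fibres.** For each nonempty set `I` of indices and all points `q p` of the line,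
`p ∉ I`, there are a nonempty subset `J` of `I` and weights `α p > 0` and `δ p c ≤ 1` (`p ∈ J`, `c` a
complex number, `δ p c = 0` for almost all `c`) with `∑ c, δ p c > 2`, such that all arcs of `{Ψ = 0}`
which are not contained in `{Θ = 0}` and on which the maps `b p` with `p ∈ I` are not constant and the
maps `b p` with `p ∉ I` have the constant values `q p` (or are not defined) satisfy
`∑_{p ∈ J} α p (k p (1 - δ p (c p)) - 1) ≥ 0`, where `c p` is the value of `b p` at the origin of the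
arc and `k p` the contact order with the fibre over `c p`. -/
def Joint (b : Fin n → LineRat Ψ) (Θ : υ → MvPolynomial (Fin (m + 1)) ℂ) : Prop :=
  ∀ (I : Finset (Fin n)) (q : Fin n → Fin 2 → ℂ), I.Nonempty →
    ∃ (J : Finset (Fin n)) (α : Fin n → ℚ) (A : Fin n → Finset ℂ) (δ : Fin n → ℂ → ℚ),
      J.Nonempty ∧ J ⊆ I ∧
      (∀ p ∈ J, 0 < α p ∧ (∀ c, δ p c ≤ 1) ∧ (∀ c ∉ A p, δ p c = 0) ∧ 2 < ∑ c ∈ A p, δ p c) ∧
      ∀ (F : Type) [Field F] [Algebra ℂ F] (P : Place ℂ F) (u : Fin (m + 1) → F)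
        (τ : Fin n → F) (s : Fin n → ℚ), IsArc Ψ Θ P u → (∀ p ∉ I, (b p).Fibre u (q p)) →
        (∀ p ∈ I, (b p).Value u (τ p) ∧ ∀ c : ℂ, τ p ≠ algebraMap ℂ F c) →
        (∀ p ∈ J, Excess P (δ p) (τ p) (s p)) → 0 ≤ ∑ p ∈ J, α p * s p

/-- The equations of the fibre of `(b 1, ..., b n)` over the point with the homogeneous coordinates
`q p 0, q p 1` (the points at which `b p` is not defined are in all fibres of `b p`). -/
noncomputable def fibreEq (b : Fin n → LineRat Ψ) (q : Fin n → Fin 2 → ℂ) :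
    κ ⊕ (Σ p, (b p).pairs) → MvPolynomial (Fin (m + 1)) ℂ :=
  Sum.elim Ψ fun a => MvPolynomial.C (q a.1 0) * a.2.1.2 - MvPolynomial.C (q a.1 1) * a.2.1.1

/-- The fibres of `(b 1, ..., b n)` have dimension zero outside the closed subset `{Θ = 0}`: the ratios
of the coordinates of all points of the fibres with coordinates in field extensions `F` of `ℂ`, which
are not in `{Θ = 0}`, are algebraic over `ℂ`. -/
def ZeroDimOff (b : Fin n → LineRat Ψ) (Θ : υ → MvPolynomial (Fin (m + 1)) ℂ) : Prop :=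
  ∀ (q : Fin n → Fin 2 → ℂ) (F : Type) [Field F] [Algebra ℂ F] (u : Fin (m + 1) → F), u ≠ 0 →
    (∀ e, val u (Ψ e) = 0) → (∃ e, val u (Θ e) ≠ 0) → (∀ p, (b p).Fibre u (q p)) →
      ∀ i j, u j ≠ 0 → IsAlgebraic ℂ (u i / u j)

end Pool.Agent.K4H25.EN
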