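import Pool.Agent.K4H25.EN.J1
import Pool.Agent.K4H25.EN.JDefs
import Pool.Agent.K4H65.DM.Brody
import Pool.Agent.TH182.TC.Core
import Pool.Agent.Y221.FQ.Sub

/-!
Entire curves in varieties with jointly multiple fibres.
-/

set_option autoImplicit false
set_option linter.overlappingInstances false
set_option linter.unusedSectionVars false
set_option linter.unusedVariables false
set_option maxHeartbeats 4000000
set_option synthInstance.maxHeartbeats 400000

open FF Filter Topology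

namespace Pool.Agent.K4H25.EN

open Pool.Agent.W602.GT Pool.Agent.Y221.FQ Pool.Agent.TH143.EL Pool.Agent.TH466.QG
open Pool.Agent.K4H65.DM (plc plc_ord val_cl)
open Pool.Agent.TH182.TC (TorusRigid OnX PS)
open Pool.Agent.Y221.AB (Fn Oz evO evO_apply)

variable {m n : ℕ} {κ υ : Type} {Ψ : κ → MvPolynomial (Fin (m + 1)) ℂ}
  {Θ : υ → MvPolynomial (Fin (m + 1)) ℂ}

theorem res_plc (z : ℂ) (x : MK) (hx : (plc z).Reg x) :
    ∃ c : ℂ, x = algebraMap ℂ MK c ∨ 0 < (plc z).ord (x - algebraMap ℂ MK c) := by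
  have hr := (plc_reg z).1 hx
  obtain ⟨c, hc⟩ : ∃ c, c = Fn x z := ⟨_, rfl⟩
  refine ⟨c, ?_⟩
  by_cases h0 : x - algebraMap ℂ MK c = 0
  · left
    exact sub_eq_zero.1 h0
  · right
    have hr' : Pool.Agent.Y221.AB.Reg (x - algebraMap ℂ MK c) z :=
      ((⟨x, hr⟩ : Oz z) - algebraMap ℂ (Oz z) c).2
    have h1 : (plc z).Reg (x - algebraMap ℂ MK c) := (plc_reg z).2 hr'
    have h2 := ((plc z).reg_iff h0).1 h1
    have h3 : (plc z).ord (x - algebraMap ℂ MK c) ≠ 0 := by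
      rw [Ne, plc_zero_iff h0, not_not]
      have h4 := evO_apply ((⟨x, hr⟩ : Oz z) - algebraMap ℂ (Oz z) c)
      rw [map_sub, AlgHom.commutes] at h4
      have h5 : (((⟨x, hr⟩ : Oz z) - algebraMap ℂ (Oz z) c : Oz z) : MK) =
          x - algebraMap ℂ MK c := rfl
      rw [h5] at h4
      rw [← h4, evO_apply, hc]
      exact sub_self _
    omega

/-- the generic point of an entire curve -/
theorem entire_point {f : ℂ → Fin (m + 1) → ℂ} (hf : Entire Ψ f) : ∃ z : Fin (m + 1) → MK,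
    z ≠ 0 ∧ (∀ T : MvPolynomial (Fin (m + 1)) ℂ, val z T = 0 ↔ ∀ t, val (f t) T = 0) ∧
      ∀ l, z l ≠ 0 → ¬ ∀ i, IsAlgebraic ℂ (z i / z l) := by
  classical
  obtain ⟨f', hf'⟩ : ∃ f' : Fin (m + 1) → ℂ → ℂ, ∀ i t, f' i t = f t i := ⟨_, fun _ _ => rfl⟩
  have hff : ∀ t, (fun i => f' i t) = f t := fun t => funext fun i => hf' i t
  have hhol : ∀ i, Differentiable ℂ (f' i) := by
    intro i
    have : f' i = fun t => f t i := funext (hf' i)
    rw [this]
    exact hf.hol i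
  have hmer : ∀ i, Meromorphic (f' i) := fun i t =>
    ((hhol i).analyticAt t).meromorphicAt
  obtain ⟨z, hzdef⟩ : ∃ z : Fin (m + 1) → MK, z = fun i => cl (f' i) (hmer i) := ⟨_, rfl⟩
  have hcont : ∀ T : MvPolynomial (Fin (m + 1)) ℂ,
      Continuous fun t => MvPolynomial.eval (fun i => f' i t) T := fun T =>
    (MvPolynomial.continuous_eval T).comp (continuous_pi fun i => (hhol i).continuous)
  have hvz : ∀ T : MvPolynomial (Fin (m + 1)) ℂ, val z T = 0 ↔ ∀ t, val (f t) T = 0 := by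
    intro T
    rw [hzdef, val_cl hmer T, cl_eq_zero]
    have h1 : ∀ t, MvPolynomial.eval (fun i => f' i t) T = val (f t) T := by
      intro t
      rw [hff]
      unfold Pool.Agent.W602.GT.val
      rw [MvPolynomial.aeval_eq_eval]
    constructor
    · intro h t
      rw [← h1]
      exact eq_of_codis (g := fun _ => 0) h (hcont T).continuousAt continuousAt_const
    · intro h
      exact Eventually.of_forall fun t => (h1 t).trans (h t)
  have hzj : ∀ (a : ℂ) i j, z i = algebraMap ℂ MK a * z j → ∀ t, f t i = a * f t j := by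
    intro a i j h t
    have h1 := (hvz (MvPolynomial.X i - MvPolynomial.C a * MvPolynomial.X j)).1 (by
      unfold Pool.Agent.W602.GT.val
      rw [map_sub, map_mul, MvPolynomial.aeval_X, MvPolynomial.aeval_X, MvPolynomial.aeval_C, h,
        sub_self]) t
    unfold Pool.Agent.W602.GT.val at h1
    rw [map_sub, map_mul, MvPolynomial.aeval_X, MvPolynomial.aeval_X, MvPolynomial.aeval_C,
      sub_eq_zero] at h1
    exact h1
  refine ⟨z, ?_, hvz, fun l hl halg => ?_⟩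
  · intro h0
    apply (hf.mem 0).1
    funext i
    have h1 := hzj 0 i i (by rw [h0]; simp) 0
    rw [h1, zero_mul]
    rfl
  · have h1 : ∀ i, ∃ a : ℂ, z i = algebraMap ℂ MK a * z l := by
      intro i
      obtain ⟨c, hc⟩ := minpoly.mem_range_of_degree_eq_one ℂ (z i / z l)
        (IsAlgClosed.degree_eq_one_of_irreducible ℂ (minpoly.irreducible (halg i).isIntegral))
      refine ⟨c, ?_⟩
      rw [hc]
      field_simp
    choose a ha using h1
    obtain ⟨t1, t2, hli⟩ := hf.nonconst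
    rw [LinearIndependent.pair_iff] at hli
    have h5 : ∀ t i, f t i = a i * f t l := fun t i => hzj _ _ _ (ha i) t
    have h6 := hli (f t2 l) (-(f t1 l)) (by
      funext i
      simp only [Pi.add_apply, Pi.smul_apply, smul_eq_mul, Pi.zero_apply]
      rw [h5 t1 i, h5 t2 i]
      ring)
    apply (hf.mem t2).1
    funext i
    rw [h5 t2 i, h6.1, mul_zero]
    rfl

theorem mem_fibreEq {b : Fin n → LineRat Ψ} {q : Fin n → Fin 2 → ℂ} (hq : ∀ p, q p ≠ 0)
    {x : Fin (m + 1) → ℂ} : x ∈ Cone (fibreEq b q) ↔ x ∈ Cone Ψ ∧ ∀ p, (b p).Fibre x (q p) := by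
  have hv : ∀ (p : Fin n) (h : (b p).pairs), val x (fibreEq b q (Sum.inr ⟨p, h⟩)) =
      algebraMap ℂ ℂ (q p 0) * val x h.1.2 - algebraMap ℂ ℂ (q p 1) * val x h.1.1 := by
    intro p h
    unfold fibreEq Pool.Agent.W602.GT.val
    rw [Sum.elim_inr, map_sub, map_mul, map_mul, MvPolynomial.aeval_C, MvPolynomial.aeval_C]
  constructor
  · rintro ⟨h0, h⟩
    refine ⟨⟨h0, fun e => h (Sum.inl e)⟩, fun p => ⟨hq p, fun h' hh' => ?_⟩⟩
    have h1 := h (Sum.inr ⟨p, h', hh'⟩)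
    rw [hv, sub_eq_zero] at h1
    exact h1
  · rintro ⟨⟨h0, h⟩, h2⟩
    refine ⟨h0, ?_⟩
    rintro (e | ⟨p, h', hh'⟩)
    · exact h e
    · rw [hv, sub_eq_zero]
      exact (h2 p).2 h' hh'

/-- the fibres which contain an entire curve -/
theorem fibre_entire {b : LineRat Ψ} {f : ℂ → Fin (m + 1) → ℂ} {z : Fin (m + 1) → MK}
    (hvz : ∀ T : MvPolynomial (Fin (m + 1)) ℂ, val z T = 0 ↔ ∀ t, val (f t) T = 0)
    {q : Fin 2 → ℂ} : b.Fibre z q ↔ ∀ t, b.Fibre (f t) q := by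
  have key : ∀ h ∈ b.pairs, (algebraMap ℂ MK (q 0) * val z h.2 = algebraMap ℂ MK (q 1) * val z h.1 ↔
      ∀ t, algebraMap ℂ ℂ (q 0) * val (f t) h.2 = algebraMap ℂ ℂ (q 1) * val (f t) h.1) := by
    intro h _
    have h1 := hvz (MvPolynomial.C (q 0) * h.2 - MvPolynomial.C (q 1) * h.1)
    unfold Pool.Agent.W602.GT.val at h1 ⊢
    rw [map_sub, map_mul, map_mul, MvPolynomial.aeval_C, MvPolynomial.aeval_C, sub_eq_zero] at h1
    rw [h1]
    refine forall_congr' fun t => ?_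
    rw [map_sub, map_mul, map_mul, MvPolynomial.aeval_C, MvPolynomial.aeval_C, sub_eq_zero]
  constructor
  · rintro ⟨h0, h⟩ t
    exact ⟨h0, fun h' hh' => (key h' hh').1 (h h' hh') t⟩
  · intro h
    exact ⟨(h 0).1, fun h' hh' => (key h' hh').2 fun t => (h t).2 h' hh'⟩

/-- the value of a map which is not constant -/
theorem value_of_not {b : LineRat Ψ} {f : ℂ → Fin (m + 1) → ℂ} (hf : Entire Ψ f)
    {z : Fin (m + 1) → MK}
    (hvz : ∀ T : MvPolynomial (Fin (m + 1)) ℂ, val z T = 0 ↔ ∀ t, val (f t) T = 0)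
    (hn : ¬ ∃ q, b.Fibre z q) : ∃ τ, b.Value z τ ∧ ∀ c : ℂ, τ ≠ algebraMap ℂ MK c := by
  have hglue : ∀ h ∈ b.pairs, ∀ h' ∈ b.pairs, val z h.1 * val z h'.2 = val z h'.1 * val z h.2 := by
    intro h hh h' hh'
    have h1 := (hvz (h.1 * h'.2 - h'.1 * h.2)).2 (fun t => by
      have h2 := b.glue h hh h' hh' (f t) (hf.mem t)
      unfold Pool.Agent.W602.GT.val at h2 ⊢
      rw [map_sub, map_mul, map_mul, sub_eq_zero]
      exact h2)
    unfold Pool.Agent.W602.GT.val at h1 ⊢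
    rw [map_sub, map_mul, map_mul, sub_eq_zero] at h1
    exact h1
  push Not at hn
  have hdef : ∃ h ∈ b.pairs, val z h.2 ≠ 0 := by
    by_contra hcon
    push Not at hcon
    refine hn ![1, 0] ⟨Function.ne_iff.2 ⟨0, by simp⟩, fun h hh => ?_⟩
    rw [hcon h hh]
    simp
  obtain ⟨h, hh, h2⟩ := hdef
  refine ⟨val z h.1 / val z h.2, ⟨h, hh, h2, rfl⟩, fun c hc => ?_⟩
  rw [div_eq_iff h2] at hc
  refine hn ![c, 1] ⟨Function.ne_iff.2 ⟨1, by simp⟩, fun h' hh' => ?_⟩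
  simp only [Matrix.cons_val_zero, Matrix.cons_val_one, map_one, one_mul]
  have h3 := hglue h hh h' hh'
  rw [hc] at h3
  apply mul_left_cancel₀ h2
  linear_combination h3

/-- **Entire curves which are not contained in the closed subset lie in the fibres.** -/
theorem entire_joint {b : Fin n → LineRat Ψ} (hJ : Joint b Θ) {f : ℂ → Fin (m + 1) → ℂ}
    (hf : Entire Ψ f) (hoff : ∃ t e, val (f t) (Θ e) ≠ 0) :
    ∃ q : Fin n → Fin 2 → ℂ, ∀ t p, (b p).Fibre (f t) (q p) := by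
  classical
  obtain ⟨z, hz, hvz, -⟩ := entire_point hf
  have hzΨ : ∀ e, val z (Ψ e) = 0 := fun e => (hvz _).2 fun t => (hf.mem t).2 e
  have hzΘ : ∃ e, val z (Θ e) ≠ 0 := by
    obtain ⟨t, e, h⟩ := hoff
    exact ⟨e, fun h0 => h ((hvz _).1 h0 t)⟩
  obtain ⟨I, hI⟩ : ∃ I : Finset (Fin n), ∀ p, p ∈ I ↔ ¬ ∃ q, (b p).Fibre z q :=
    ⟨Finset.univ.filter fun p => ¬ ∃ q, (b p).Fibre z q, fun p => by simp⟩
  have hout : ∀ p, ∃ q, p ∉ I → (b p).Fibre z q := by
    intro p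
    by_cases hp : p ∈ I
    · exact ⟨0, fun h => absurd hp h⟩
    · rw [hI, not_not] at hp
      obtain ⟨q, hq⟩ := hp
      exact ⟨q, fun _ => hq⟩
  choose q hq using hout
  by_cases hIe : I.Nonempty
  · exfalso
    obtain ⟨J, α, A, δ, hJe, hJI, hw, hloc⟩ := hJ I q hIe
    have hval : ∀ p, ∃ τ, p ∈ I → (b p).Value z τ ∧ ∀ c : ℂ, τ ≠ algebraMap ℂ MK c := by
      intro p
      by_cases hp : p ∈ I
      · obtain ⟨τ, hτ⟩ := value_of_not hf hvz ((hI p).1 hp)
        exact ⟨τ, fun _ => hτ⟩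
      · exact ⟨0, fun h => absurd h hp⟩
    choose τ hτ using hval
    have hne : Nonempty J := hJe.to_subtype
    refine joint (ι := J) (fun p => τ p) (fun p => (hτ p (hJI p.2)).2)
      (α := fun p => α p) (fun p => (hw p p.2).1) (fun p => A p) (δ := fun p => δ p)
      (fun p => (hw p p.2).2.1) (fun p => (hw p p.2).2.2.1) (fun p => (hw p p.2).2.2.2)
      fun z0 s hs => ?_
    obtain ⟨s', hs'⟩ : ∃ s' : Fin n → ℚ, ∀ p : J, s' p = s p :=
      ⟨fun p => if hp : p ∈ J then s ⟨p, hp⟩ else 0, fun p => by simp⟩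
    have h1 := hloc MK (plc z0) z τ s' ⟨res_plc z0, hz, hzΨ, hzΘ⟩ hq hτ (fun p hp => by
      have h2 := hs ⟨p, hp⟩
      rw [← hs'] at h2
      exact h2)
    rw [← Finset.sum_coe_sort] at h1
    have h2 : ∑ p : J, α p * s' p = ∑ p : J, α p * s p :=
      Finset.sum_congr rfl fun p _ => by rw [hs']
    rw [h2] at h1
    exact h1
  · exact ⟨q, fun t p => (fibre_entire hvz).1 (hq p fun hp => hIe ⟨p, hp⟩) t⟩

/-- **Entire curves if the fibres are finite outside the closed subset.** -/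
theorem entire_joint_off {b : Fin n → LineRat Ψ} (hJ : Joint b Θ) (hfin : ZeroDimOff b Θ)
    {f : ℂ → Fin (m + 1) → ℂ} (hf : Entire Ψ f) (t : ℂ) (e : υ) : val (f t) (Θ e) = 0 := by
  by_contra hcon
  obtain ⟨q, hat⟩ := entire_joint hJ hf ⟨t, e, hcon⟩
  obtain ⟨z, hz, hvz, hnc⟩ := entire_point hf
  have hzΨ : ∀ e, val z (Ψ e) = 0 := fun e => (hvz _).2 fun t => (hf.mem t).2 e
  obtain ⟨l, hl⟩ := Function.ne_iff.1 hz
  refine hnc l hl fun i => ?_
  exact hfin q MK z hz hzΨ ⟨e, fun h0 => hcon ((hvz _).1 h0 t)⟩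
    (fun p => (fibre_entire hvz).2 fun s => hat s p) i l hl

theorem torus_mono {μ : Type} {Φ : μ → MvPolynomial (Fin (m + 1)) ℂ}
    (hsub : ∀ x : Fin (m + 1) → ℂ, x ∈ Cone Φ → x ∈ Cone Ψ) (h : TorusRigid Ψ) :
    TorusRigid Φ := by
  intro d l g hg hX hper
  refine h d l g hg (fun z i => ?_) hper
  have h1 : (g z).rep ∈ Cone Φ := by
    refine ⟨(g z).rep_nonzero, fun e => ?_⟩
    have h2 := hX z e
    unfold Pool.Agent.W602.GT.val
    rw [MvPolynomial.aeval_eq_eval]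
    exact h2
  have h2 := (hsub _ h1).2 i
  unfold Pool.Agent.W602.GT.val at h2
  rw [MvPolynomial.aeval_eq_eval] at h2
  exact h2

/-- **Maps from tori.** -/
theorem torus_joint {b : Fin n → LineRat Ψ} (hJ : Joint b Θ)
    (h1 : TorusRigid (Sum.elim Ψ Θ) → ∀ f, ¬ Entire (Sum.elim Ψ Θ) f)
    (h2 : ∀ q : Fin n → Fin 2 → ℂ, (∀ p, q p ≠ 0) → TorusRigid (fibreEq b q) →
      ∀ f, ¬ Entire (fibreEq b q) f) (hT : TorusRigid Ψ) (f : ℂ → Fin (m + 1) → ℂ)
    (hf : Entire Ψ f) : False := by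
  by_cases hoff : ∃ t e, val (f t) (Θ e) ≠ 0
  · obtain ⟨q, hat⟩ := entire_joint hJ hf hoff
    have hq : ∀ p, q p ≠ 0 := fun p => (hat 0 p).1
    refine h2 q hq (torus_mono (fun x hx => ((mem_fibreEq hq).1 hx).1) hT) f
      ⟨hf.hol, fun t => (mem_fibreEq hq).2 ⟨hf.mem t, hat t⟩, hf.nonconst⟩
  · push Not at hoff
    refine h1 (torus_mono (fun x hx => ⟨hx.1, fun e => hx.2 (Sum.inl e)⟩) hT) f
      ⟨hf.hol, fun t => ⟨(hf.mem t).1, ?_⟩, hf.nonconst⟩
    rintro (e | e)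
    · exact (hf.mem t).2 e
    · exact hoff t e

end Pool.Agent.K4H25.EN
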