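import Pool.Agent.K4H25.EN.J2

/-!
An example: cyclic coverings of products of lines.
-/

set_option autoImplicit false
set_option linter.overlappingInstances false
set_option linter.unusedSectionVars false
set_option linter.unusedVariables false
set_option maxHeartbeats 4000000
set_option synthInstance.maxHeartbeats 400000

open FF MvPolynomial

namespace Pool.Agent.K4H25.EN

open Pool.Agent.W602.GT Pool.Agent.Y221.FQ Pool.Agent.W603.LV

/-- The equation `W ^ μ * X_0 ^ e = ∏_p ∏_{c ∈ A p} (X_p - c X_0)`, where `W` is the last of the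
variables `X_0, ..., X_(n + 1)` and `e = ∑ |A p| - μ`. -/
noncomputable def cycEq {n : ℕ} (A : Fin n → Finset ℂ) (μ : ℕ) :
    Unit → MvPolynomial (Fin (n + 1 + 1)) ℂ := fun _ =>
  X (Fin.last _) ^ μ * X 0 ^ (∑ p, (A p).card - μ) -
    ∏ p : Fin n, ∏ c ∈ A p, (X p.succ.castSucc - C c * X 0)

/-- The rational map `(X_p : X_0)`. -/
noncomputable def cycMap {n : ℕ} (A : Fin n → Finset ℂ) (μ : ℕ) (p : Fin n) :
    LineRat (cycEq A μ) where
  pairs := {(X p.succ.castSucc, X 0)}
  form := by
    rintro _ rfl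
    exact ⟨1, isHomogeneous_X _ _, isHomogeneous_X _ _⟩
  glue := by
    rintro _ rfl _ rfl x _
    ring

/-- The form `W * X_0`. -/
noncomputable def cycOff (n : ℕ) : Unit → MvPolynomial (Fin (n + 1 + 1)) ℂ := fun _ =>
  X (Fin.last _) * X 0

theorem cycEq_form {n : ℕ} (A : Fin n → Finset ℂ) {μ : ℕ} (hμ : μ ≤ ∑ p, (A p).card) (i : Unit) :
    IsForm (cycEq A μ i) := by
  refine ⟨∑ p, (A p).card, ?_⟩
  unfold cycEq
  refine IsHomogeneous.sub ?_ ?_
  · have h1 := ((isHomogeneous_X ℂ (Fin.last (n + 1))).pow μ).mul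
      ((isHomogeneous_X ℂ (0 : Fin (n + 1 + 1))).pow (∑ p, (A p).card - μ))
    have h2 : 1 * μ + 1 * (∑ p, (A p).card - μ) = ∑ p, (A p).card := by omega
    rw [h2] at h1
    exact h1
  · refine IsHomogeneous.prod _ _ _ fun p _ => ?_
    have h1 : (A p).card = ∑ c ∈ A p, 1 := by simp
    rw [h1]
    refine IsHomogeneous.prod _ _ _ fun c _ => ?_
    refine (isHomogeneous_X ℂ _).sub ?_
    have h2 := (isHomogeneous_C (Fin (n + 1 + 1)) c).mul (isHomogeneous_X ℂ (0 : Fin (n + 1 + 1)))
    rw [zero_add] at h2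
    exact h2

/-- the order of `∏_{c ∈ A} (τ - c)` -/
theorem ord_prod_sub {F : Type} [Field F] [Algebra ℂ F] (P : Place ℂ F) {τ : F} (A : Finset ℂ)
    (hne : ∀ c ∈ A, τ - algebraMap ℂ F c ≠ 0) :
    P.ord (∏ c ∈ A, (τ - algebraMap ℂ F c)) = ∑ c ∈ A, P.ord (τ - algebraMap ℂ F c) := by
  classical
  induction A using Finset.induction_on with
  | empty =>
    rw [Finset.prod_empty, Finset.sum_empty]
    exact Place.ord_one _
  | insert c A hc ih =>
    rw [Finset.prod_insert hc, Finset.sum_insert hc, P.ord_mul (hne c (Finset.mem_insert_self _ _))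
      (Finset.prod_ne_zero_iff.2 fun c' hc' => hne c' (Finset.mem_insert_of_mem hc')),
      ih fun c' hc' => hne c' (Finset.mem_insert_of_mem hc')]

theorem ord_prod {F : Type} [Field F] [Algebra ℂ F] (P : Place ℂ F) {S : Type} (s : Finset S)
    {x : S → F} (hne : ∀ i, x i ≠ 0) : P.ord (∏ i ∈ s, x i) = ∑ i ∈ s, P.ord (x i) := by
  classical
  induction s using Finset.induction_on with
  | empty =>
    rw [Finset.prod_empty, Finset.sum_empty]
    exact Place.ord_one _
  | insert c A hc ih =>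
    rw [Finset.prod_insert hc, Finset.sum_insert hc, P.ord_mul (hne c)
      (Finset.prod_ne_zero_iff.2 fun c' _ => hne c'), ih]

/-- **Cyclic coverings.** -/
theorem cyc_joint {n μ : ℕ} (A : Fin n → Finset ℂ) (hμ : μ ≤ ∑ p, (A p).card) (hn : n < μ)
    (hdvd : ∀ p, μ ∣ (A p).card) (hdeg : ∀ p, 2 * μ < (μ - n) * (A p).card) :
    Joint (cycMap A μ) (cycOff n) := by
  classical
  intro I q hI
  have hμ0 : (0 : ℚ) < μ := by
    have : 0 < μ := by omega
    exact_mod_cast this
  have hnμ : (n : ℚ) < μ := by exact_mod_cast hn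
  refine ⟨I, fun _ => 1, A, fun p c => if c ∈ A p then 1 - n / μ else 0, hI, subset_rfl,
    fun p hp => ⟨one_pos, fun c => ?_, fun c hc => if_neg hc, ?_⟩, ?_⟩
  · beta_reduce
    split_ifs
    · have : (0 : ℚ) ≤ n / μ := by positivity
      linarith
    · norm_num
  · beta_reduce
    rw [Finset.sum_congr rfl (fun c hc => if_pos hc), Finset.sum_const, nsmul_eq_mul]
    have h1 : (2 * μ : ℚ) < (μ - n) * (A p).card := by
      have h2 := hdeg p
      have h3 : ((2 * μ : ℕ) : ℚ) < (((μ - n) * (A p).card : ℕ) : ℚ) := by exact_mod_cast h2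
      push_cast [Nat.cast_sub hn.le] at h3
      exact h3
    have h2 : ((A p).card : ℚ) * (1 - n / μ) = (μ - n) * (A p).card / μ := by
      field_simp
    rw [h2, lt_div_iff₀ hμ0]
    linarith
  intro F _ _ P u τ s hu hout hin hex
  simp only [one_mul]
  obtain ⟨x0, hx0⟩ : ∃ x0, x0 = u 0 := ⟨_, rfl⟩
  obtain ⟨w, hw⟩ : ∃ w, w = u (Fin.last (n + 1)) := ⟨_, rfl⟩
  have hoff : w ≠ 0 ∧ x0 ≠ 0 := by
    obtain ⟨_, h1⟩ := hu.off
    unfold cycOff Pool.Agent.W602.GT.val at h1
    rw [map_mul, aeval_X, aeval_X] at h1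
    rw [hw, hx0]
    exact ⟨left_ne_zero_of_mul h1, right_ne_zero_of_mul h1⟩
  obtain ⟨hw0, hx00⟩ := hoff
  obtain ⟨σ, hσ⟩ : ∃ σ : Fin n → F, ∀ p, σ p = u p.succ.castSucc / x0 := ⟨_, fun p => rfl⟩
  have hτσ : ∀ p ∈ I, τ p = σ p := by
    intro p hp
    obtain ⟨⟨h, hh, h2, h3⟩, -⟩ := hin p hp
    obtain rfl : h = (X p.succ.castSucc, X 0) := hh
    rw [h3, hσ, hx0]
    unfold Pool.Agent.W602.GT.val
    rw [aeval_X, aeval_X]
  have hcσ : ∀ p ∉ I, ∃ c, σ p = algebraMap ℂ F c := by
    intro p hp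
    obtain ⟨hq, h1⟩ := hout p hp
    have h2 := h1 (X p.succ.castSucc, X 0) rfl
    unfold Pool.Agent.W602.GT.val at h2
    rw [aeval_X, aeval_X, ← hx0] at h2
    have hq1 : q p 1 ≠ 0 := by
      intro h0
      rw [h0, map_zero, zero_mul] at h2
      have h3 := (mul_eq_zero.1 h2).resolve_right hx00
      apply hq
      funext l
      fin_cases l
      · exact (map_eq_zero _).1 h3
      · exact h0
    refine ⟨q p 0 / q p 1, ?_⟩
    have h4 : algebraMap ℂ F (q p 1) ≠ 0 := (_root_.map_ne_zero _).2 hq1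
    rw [hσ, map_div₀, div_eq_div_iff hx00 h4]
    linear_combination -h2
  -- the equation
  have heq : (w / x0) ^ μ = ∏ p : Fin n, ∏ c ∈ A p, (σ p - algebraMap ℂ F c) := by
    have h1 := hu.mem ()
    unfold cycEq Pool.Agent.W602.GT.val at h1
    rw [map_sub, map_mul, map_pow, map_pow, aeval_X, aeval_X, map_prod, ← hw, ← hx0,
      sub_eq_zero] at h1
    have h2 : ∀ p : Fin n, aeval u (∏ c ∈ A p, (X p.succ.castSucc - C c * X 0)) =
        x0 ^ (A p).card * ∏ c ∈ A p, (σ p - algebraMap ℂ F c) := by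
      intro p
      rw [map_prod, ← Finset.prod_const, ← Finset.prod_mul_distrib]
      refine Finset.prod_congr rfl fun c _ => ?_
      rw [map_sub, map_mul, aeval_X, aeval_X, aeval_C, ← hx0, hσ]
      field_simp
    rw [Finset.prod_congr rfl fun p _ => h2 p, Finset.prod_mul_distrib,
      Finset.prod_pow_eq_pow_sum] at h1
    have h3 : x0 ^ (∑ p, (A p).card) = x0 ^ μ * x0 ^ (∑ p, (A p).card - μ) := by
      rw [← pow_add]
      congr 1
      omega
    rw [h3] at h1
    rw [div_pow, div_eq_iff (pow_ne_zero _ hx00)]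
    have h4 : x0 ^ (∑ p, (A p).card - μ) ≠ 0 := pow_ne_zero _ hx00
    apply mul_right_cancel₀ h4
    rw [h1]
    ring
  have hwx : w / x0 ≠ 0 := div_ne_zero hw0 hx00
  have hne1 : ∀ p, (∏ c ∈ A p, (σ p - algebraMap ℂ F c)) ≠ 0 := by
    intro p h0
    have h1 : (w / x0) ^ μ = 0 := by
      rw [heq]
      exact Finset.prod_eq_zero (Finset.mem_univ p) h0
    exact pow_ne_zero _ hwx h1
  have hne2 : ∀ p, ∀ c ∈ A p, σ p - algebraMap ℂ F c ≠ 0 := fun p c hc =>
    Finset.prod_ne_zero_iff.1 (hne1 p) c hc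
  have hord : (μ : ℤ) * P.ord (w / x0) = ∑ p, ∑ c ∈ A p, P.ord (σ p - algebraMap ℂ F c) := by
    rw [← P.ord_pow, heq, ord_prod P _ hne1]
    exact Finset.sum_congr rfl fun p _ => ord_prod_sub P (A p) (hne2 p)
  -- the local data
  have hloc : ∀ p, ∃ k : ℕ, ∃ i : Bool, (i = true → 1 ≤ k) ∧
      (∃ j : ℤ, ∑ c ∈ A p, P.ord (σ p - algebraMap ℂ F c) = (if i then (k : ℤ) else 0) + μ * j) ∧
      (i = true → p ∈ I) ∧ (p ∈ I → (if i then (k : ℚ) * (n / μ) - 1 else 0) ≤ s p) := by
    intro p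
    have hconst : ∀ a : ℂ, a ≠ 0 → P.ord (algebraMap ℂ F a) = 0 := fun a ha => P.ord_const ha
    by_cases hp : p ∈ I
    · have hnc := (hin p hp).2
      have hex' := hex p hp
      rw [hτσ p hp] at hnc hex'
      rcases hex' with ⟨c, hc, hs⟩ | ⟨hc, hs⟩
      · have hother : ∀ c' : ℂ, c' ≠ c → P.ord (σ p - algebraMap ℂ F c') = 0 := by
          intro c' hc'
          have h1 : σ p - algebraMap ℂ F c ≠ 0 := sub_ne_zero.2 (hnc c)
          have h2 : algebraMap ℂ F (c - c') ≠ 0 := (_root_.map_ne_zero _).2 (sub_ne_zero.2 hc'.symm)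
          have h3 := P.ord_add_eq h2 h1 (by rw [hconst _ (sub_ne_zero.2 hc'.symm)]; exact hc)
          have h4 : algebraMap ℂ F (c - c') + (σ p - algebraMap ℂ F c) =
              σ p - algebraMap ℂ F c' := by
            rw [map_sub]
            ring
          rw [h4, hconst _ (sub_ne_zero.2 hc'.symm)] at h3
          exact h3.2
        obtain ⟨k, hk⟩ := Int.eq_ofNat_of_zero_le hc.le
        by_cases hcA : c ∈ A p
        · refine ⟨k, true, fun _ => ?_, ⟨0, ?_⟩, fun _ => hp, fun _ => ?_⟩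
          · rw [hk] at hc
            omega
          · rw [Finset.sum_eq_single c (fun c' _ hc' => hother c' hc')
              (fun h => absurd hcA h), hk]
            simp
          · rw [hs]
            beta_reduce
            rw [if_pos rfl, if_pos hcA, hk]
            push_cast
            have : (k : ℚ) * (1 - (1 - n / μ)) = k * (n / μ) := by ring
            rw [this]
        · refine ⟨0, false, fun h => absurd h (by simp), ⟨0, ?_⟩, fun h => absurd h (by simp),
            fun _ => ?_⟩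
          · rw [Finset.sum_eq_zero fun c' hc' => hother c' (by rintro rfl; exact hcA hc')]
            simp
          · rw [hs]
            beta_reduce
            rw [if_neg (by simp), if_neg hcA, hk, sub_zero, mul_one]
            rw [hk] at hc
            have h1 : (1 : ℤ) ≤ k := by omega
            have h2 : (1 : ℚ) ≤ ((k : ℤ) : ℚ) := by exact_mod_cast h1
            linarith
      · have hall : ∀ c' : ℂ, P.ord (σ p - algebraMap ℂ F c') = P.ord (σ p) := by
          intro c'
          by_cases h0 : c' = 0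
          · rw [h0, map_zero, sub_zero]
          · have h1 : σ p ≠ 0 := by
              intro h
              apply hnc 0
              rw [h, map_zero]
            have h2 : -algebraMap ℂ F c' ≠ 0 := neg_ne_zero.2 ((_root_.map_ne_zero _).2 h0)
            have h3 := P.ord_add_eq h1 h2 (by rw [P.ord_neg, hconst _ h0]; exact hc)
            rw [← sub_eq_add_neg] at h3
            exact h3.2
        obtain ⟨j, hj⟩ := hdvd p
        refine ⟨0, false, fun h => absurd h (by simp), ⟨j * P.ord (σ p), ?_⟩,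
          fun h => absurd h (by simp), fun _ => ?_⟩
        · rw [Finset.sum_congr rfl fun c' _ => hall c', Finset.sum_const, nsmul_eq_mul, hj]
          push_cast
          simp
          ring
        · rw [hs, if_neg (by simp)]
          have h1 : (1 : ℤ) ≤ -P.ord (σ p) := by omega
          have h2 : (1 : ℚ) ≤ ((-P.ord (σ p) : ℤ) : ℚ) := by exact_mod_cast h1
          push_cast at h2
          linarith
    · refine ⟨0, false, fun h => absurd h (by simp), ⟨0, ?_⟩, fun h => absurd h (by simp),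
        fun h => absurd h hp⟩
      obtain ⟨c, hc⟩ := hcσ p hp
      rw [Finset.sum_eq_zero]
      · simp
      · intro c' hc'
        have h1 := hne2 p c' hc'
        rw [hc, ← map_sub] at h1 ⊢
        exact hconst _ fun h => h1 (by rw [h, map_zero])
  choose k i hk1 hk2 hk3 hk4 using hloc
  choose j hj using hk2
  obtain ⟨S, hS⟩ : ∃ S : Finset (Fin n), S = Finset.univ.filter fun p => i p = true := ⟨_, rfl⟩
  have hSI : S ⊆ I := by
    intro p hp
    rw [hS, Finset.mem_filter] at hp
    exact hk3 p hp.2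
  have hsum : (μ : ℤ) * P.ord (w / x0) = ∑ p ∈ S, (k p : ℤ) + μ * ∑ p, j p := by
    rw [hord, Finset.sum_congr rfl fun p _ => hj p, Finset.sum_add_distrib, ← Finset.mul_sum, hS,
      Finset.sum_filter]
  have hlow : ∑ p ∈ S, ((k p : ℚ) * (n / μ) - 1) ≤ ∑ p ∈ I, s p := by
    have h1 : ∑ p ∈ I, (if i p then (k p : ℚ) * (n / μ) - 1 else 0) ≤ ∑ p ∈ I, s p :=
      Finset.sum_le_sum fun p hp => hk4 p hp
    refine le_trans (le_of_eq ?_) h1
    rw [← Finset.sum_filter]
    refine Finset.sum_congr ?_ fun _ _ => rfl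
    ext p
    rw [Finset.mem_filter, hS, Finset.mem_filter]
    constructor
    · rintro ⟨-, h⟩
      exact ⟨hk3 p h, h⟩
    · rintro ⟨-, h⟩
      exact ⟨Finset.mem_univ _, h⟩
  refine le_trans ?_ hlow
  rcases S.eq_empty_or_nonempty with hSe | hSe
  · rw [hSe, Finset.sum_empty]
  · have h1 : (μ : ℤ) ∣ ∑ p ∈ S, (k p : ℤ) := ⟨P.ord (w / x0) - ∑ p, j p, by
      rw [mul_sub, hsum]
      ring⟩
    have h2 : 0 < ∑ p ∈ S, (k p : ℤ) := by
      refine Finset.sum_pos (fun p hp => ?_) hSe
      rw [hS, Finset.mem_filter] at hp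
      have := hk1 p hp.2
      omega
    have h3 := Int.le_of_dvd h2 h1
    have h4 : (μ : ℚ) ≤ ∑ p ∈ S, (k p : ℚ) := by exact_mod_cast h3
    have h5 : (S.card : ℚ) ≤ n := by
      have := Finset.card_le_univ S
      rw [Fintype.card_fin] at this
      exact_mod_cast this
    rw [Finset.sum_sub_distrib, ← Finset.sum_mul, Finset.sum_const, nsmul_eq_mul, mul_one]
    have h6 : (n : ℚ) ≤ (∑ p ∈ S, (k p : ℚ)) * (n / μ) := by
      have h7 : (n : ℚ) = μ * (n / μ) := by field_simp
      calc (n : ℚ) = μ * (n / μ) := h7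
        _ ≤ _ := mul_le_mul_of_nonneg_right h4 (by positivity)
    linarith

end Pool.Agent.K4H25.EN
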