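import Pool.Agent.K4H25.EN.J3

/-!
The fibres of the example.
-/

set_option autoImplicit false
set_option linter.overlappingInstances false
set_option linter.unusedSectionVars false
set_option linter.unusedVariables false
set_option maxHeartbeats 4000000
set_option synthInstance.maxHeartbeats 400000

open FF MvPolynomial

namespace Pool.Agent.K4H25.EN

open Pool.Agent.W602.GT Pool.Agent.Y221.FQ Pool.Agent.W603.LV

theorem cyc_zeroDim {n μ : ℕ} (A : Fin n → Finset ℂ) (hμ : μ ≤ ∑ p, (A p).card) (hμ0 : 0 < μ) :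
    ZeroDimOff (cycMap A μ) (cycOff n) := by
  classical
  intro q F _ _ u hu0 hmem hoff hfib
  obtain ⟨x0, hx0⟩ : ∃ x0, x0 = u 0 := ⟨_, rfl⟩
  obtain ⟨w, hw⟩ : ∃ w, w = u (Fin.last (n + 1)) := ⟨_, rfl⟩
  have hoff' : w ≠ 0 ∧ x0 ≠ 0 := by
    obtain ⟨_, h1⟩ := hoff
    unfold cycOff Pool.Agent.W602.GT.val at h1
    rw [map_mul, aeval_X, aeval_X] at h1
    rw [hw, hx0]
    exact ⟨left_ne_zero_of_mul h1, right_ne_zero_of_mul h1⟩
  obtain ⟨hw0, hx00⟩ := hoff'
  obtain ⟨σ, hσ⟩ : ∃ σ : Fin n → F, ∀ p, σ p = u p.succ.castSucc / x0 := ⟨_, fun p => rfl⟩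
  have hcσ : ∀ p, ∃ c, σ p = algebraMap ℂ F c := by
    intro p
    obtain ⟨hq, h1⟩ := hfib p
    have h2 := h1 (X p.succ.castSucc, X 0) rfl
    unfold Pool.Agent.W602.GT.val at h2
    rw [aeval_X, aeval_X, ← hx0] at h2
    have hq1 : q p 1 ≠ 0 := by
      intro h0
      rw [h0, map_zero, zero_mul] at h2
      have h3 := (mul_eq_zero.1 h2).resolve_right hx00
      apply hq
      funext l
      fin_cases l
      · exact (map_eq_zero _).1 h3
      · exact h0
    refine ⟨q p 0 / q p 1, ?_⟩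
    have h4 : algebraMap ℂ F (q p 1) ≠ 0 := (_root_.map_ne_zero _).2 hq1
    rw [hσ, map_div₀, div_eq_div_iff hx00 h4]
    linear_combination -h2
  choose c hc using hcσ
  have heq : (w / x0) ^ μ = ∏ p : Fin n, ∏ a ∈ A p, (σ p - algebraMap ℂ F a) := by
    have h1 := hmem ()
    unfold cycEq Pool.Agent.W602.GT.val at h1
    rw [map_sub, map_mul, map_pow, map_pow, aeval_X, aeval_X, map_prod, ← hw, ← hx0,
      sub_eq_zero] at h1
    have h2 : ∀ p : Fin n, aeval u (∏ c ∈ A p, (X p.succ.castSucc - C c * X 0)) =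
        x0 ^ (A p).card * ∏ c ∈ A p, (σ p - algebraMap ℂ F c) := by
      intro p
      rw [map_prod, ← Finset.prod_const, ← Finset.prod_mul_distrib]
      refine Finset.prod_congr rfl fun c _ => ?_
      rw [map_sub, map_mul, aeval_X, aeval_X, aeval_C, ← hx0, hσ]
      field_simp
    rw [Finset.prod_congr rfl fun p _ => h2 p, Finset.prod_mul_distrib,
      Finset.prod_pow_eq_pow_sum] at h1
    have h3 : x0 ^ (∑ p, (A p).card) = x0 ^ μ * x0 ^ (∑ p, (A p).card - μ) := by
      rw [← pow_add]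
      congr 1
      omega
    rw [h3] at h1
    rw [div_pow, div_eq_iff (pow_ne_zero _ hx00)]
    have h4 : x0 ^ (∑ p, (A p).card - μ) ≠ 0 := pow_ne_zero _ hx00
    apply mul_right_cancel₀ h4
    rw [h1]
    ring
  have halg : ∀ i, IsAlgebraic ℂ (u i / x0) := by
    intro i
    refine Fin.lastCases ?_ (fun j => ?_) i
    · rw [← hw]
      refine IsAlgebraic.of_pow hμ0 ?_
      rw [heq]
      have h1 : (∏ p : Fin n, ∏ a ∈ A p, (σ p - algebraMap ℂ F a)) =
          algebraMap ℂ F (∏ p : Fin n, ∏ a ∈ A p, (c p - a)) := by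
        rw [map_prod]
        refine Finset.prod_congr rfl fun p _ => ?_
        rw [map_prod]
        refine Finset.prod_congr rfl fun a _ => ?_
        rw [map_sub, hc]
      rw [h1]
      exact isAlgebraic_algebraMap _
    · refine Fin.cases ?_ (fun p => ?_) j
      · have h1 : u (Fin.castSucc 0) = x0 := hx0.symm
        rw [h1, div_self hx00]
        exact isAlgebraic_one
      · rw [← hσ, hc]
        exact isAlgebraic_algebraMap _
  intro i j hj
  have h1 : u i / u j = (u i / x0) * (u j / x0)⁻¹ := by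
    field_simp
  rw [h1]
  exact (halg i).mul (halg j).inv

end Pool.Agent.K4H25.EN
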